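import Pool.Agent.TH683.AT.Defs
import Pool.Agent.TH683.CP.Sharp

/-!
# Configurations of algorithms with a small memory
-/

set_option autoImplicit false

namespace Pool.Agent.TH683.AT

open Pool.Agent.NPC Pool.Agent.H620R2.Gauge Pool.Agent.TH683.CP Pool.Agent.TH683.AL Finset

/-- The next configuration: `[]` is the accepting configuration, `true :: u` the configuration with
memory `u`; if the memory gets too long, or if the algorithm stops with an output different from
`[true]`, then the configuration does not change. -/
def stepF (A : Oracle) (M : SAlg) (B : ℕ) (x : List Bool) : List Bool → List Bool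
  | true :: u =>
    if (M.act (pairBits x u)).head? = some false then
      if (M.next (pairBits x (A (M.act (pairBits x u)).tail :: u))).length ≤ B then
        true :: M.next (pairBits x (A (M.act (pairBits x u)).tail :: u))
      else true :: u
    else if M.act (pairBits x u) = [true, true] then [] else true :: u
  | c => c

theorem stepF_nil (A : Oracle) (M : SAlg) (B : ℕ) (x : List Bool) : stepF A M B x [] = [] := rfl

theorem iter_nil (A : Oracle) (M : SAlg) (B : ℕ) (x : List Bool) (t : ℕ) :
    (stepF A M B x)^[t] [] = [] := by
  induction t with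
  | zero => rfl
  | succ t ih => rw [Function.iterate_succ_apply, stepF_nil, ih]

theorem stepF_len (A : Oracle) (M : SAlg) (B : ℕ) (x c : List Bool) :
    (stepF A M B x c).length ≤ max c.length (B + 1) := by
  unfold stepF
  split
  · split_ifs
    · simp only [List.length_cons]
      omega
    · exact le_max_left _ _
    · simp
    · exact le_max_left _ _
  · exact le_max_left _ _

theorem iter_len (A : Oracle) (M : SAlg) (B : ℕ) (x : List Bool) (t : ℕ) : ∀ c : List Bool,
    ((stepF A M B x)^[t] c).length ≤ max c.length (B + 1) := by
  induction t with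
  | zero => intro c; exact le_max_left _ _
  | succ t ih =>
    intro c
    rw [Function.iterate_succ_apply]
    refine (ih _).trans ?_
    have := stepF_len A M B x c
    omega

/-- the configurations of the computation -/
theorem iter_reach (A : Oracle) (M : SAlg) (B : ℕ) (x : List Bool) (t : ℕ) :
    (stepF A M B x)^[t] [true] = [] ∨
      ∃ u, M.Reach A x u ∧ (stepF A M B x)^[t] [true] = true :: u := by
  induction t with
  | zero => exact Or.inr ⟨[], SAlg.Reach.start, rfl⟩
  | succ t ih =>
    rw [Function.iterate_succ_apply']
    rcases ih with h | ⟨u, hu, h⟩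
    · rw [h]
      exact Or.inl rfl
    · rw [h]
      unfold stepF
      dsimp only
      split_ifs with h1 h2 h3
      · refine Or.inr ⟨_, SAlg.Reach.step (q := (M.act (pairBits x u)).tail) hu ?_, rfl⟩
        match hh : M.act (pairBits x u), h1 with
        | false :: q, _ => rfl
      · exact Or.inr ⟨u, hu, rfl⟩
      · exact Or.inl rfl
      · exact Or.inr ⟨u, hu, rfl⟩

theorem reach_iter (A : Oracle) (M : SAlg) (B : ℕ) (x : List Bool)
    (hB : ∀ u, M.Reach A x u → u.length ≤ B) {u : List Bool} (hu : M.Reach A x u) :
    ∃ t, (stepF A M B x)^[t] [true] = true :: u := by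
  induction hu with
  | start => exact ⟨0, rfl⟩
  | @step s q hs hq ih =>
    obtain ⟨t, ht⟩ := ih
    refine ⟨t + 1, ?_⟩
    rw [Function.iterate_succ_apply', ht]
    unfold stepF
    dsimp only
    rw [hq]
    have h2 := hB _ (SAlg.Reach.step hs hq)
    simp [h2]

theorem mem_iff_iter (A : Oracle) (M : SAlg) (B : ℕ) (x : List Bool) (L : Set (List Bool))
    (hB : ∀ u, M.Reach A x u → u.length ≤ B)
    (hx : ∃ u z, M.Reach A x u ∧ M.act (pairBits x u) = true :: z ∧ (x ∈ L ↔ z = [true])) :
    x ∈ L ↔ ∃ t, (stepF A M B x)^[t] [true] = [] := by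
  obtain ⟨u, z, hu, hz, hL⟩ := hx
  obtain ⟨t, ht⟩ := reach_iter A M B x hB hu
  have hstep : stepF A M B x (true :: u) = if z = [true] then [] else true :: u := by
    unfold stepF
    dsimp only
    rw [hz]
    simp
  constructor
  · intro h
    refine ⟨t + 1, ?_⟩
    rw [Function.iterate_succ_apply', ht, hstep, if_pos (hL.1 h)]
  · rintro ⟨t', ht'⟩
    by_contra hn
    have hz' : z ≠ [true] := fun h => hn (hL.2 h)
    rw [if_neg hz'] at hstep
    have hfix : ∀ e, (stepF A M B x)^[e] (true :: u) = true :: u := by
      intro e
      induction e with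
      | zero => rfl
      | succ e ih => rw [Function.iterate_succ_apply, hstep, ih]
    rcases Nat.le_total t t' with h | h
    · obtain ⟨e, rfl⟩ := Nat.exists_eq_add_of_le h
      rw [Nat.add_comm, Function.iterate_add_apply, ht, hfix] at ht'
      exact absurd ht' (by simp)
    · obtain ⟨e, rfl⟩ := Nat.exists_eq_add_of_le h
      rw [Nat.add_comm, Function.iterate_add_apply, ht', iter_nil] at ht
      exact absurd ht (by simp)

/-- strings of bounded length -/
theorem card_short (B : ℕ) (T : ℕ) (f : Fin T → List Bool) (hf : Function.Injective f)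
    (hl : ∀ i, (f i).length ≤ B) : T ≤ 2 ^ (B + 1) := by
  classical
  have h1 : (univ.image f) ⊆ W_strs B := by
    intro y hy
    obtain ⟨i, _, rfl⟩ := Finset.mem_image.1 hy
    exact W_mem_strs (hl i)
  have h2 := (Finset.card_le_card h1).trans (W_card_strs B)
  rwa [Finset.card_image_of_injective _ hf, Finset.card_univ, Fintype.card_fin] at h2

theorem iter_bound (A : Oracle) (M : SAlg) (B B₀ : ℕ) (x : List Bool)
    (hB : ∀ u, M.Reach A x u → u.length ≤ B₀)
    (h : ∃ t, (stepF A M B x)^[t] [true] = []) :
    ∃ t ≤ 2 ^ (B₀ + 2), (stepF A M B x)^[t] [true] = [] := by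
  classical
  refine ⟨Nat.find h, ?_, Nat.find_spec h⟩
  have hinj : Function.Injective (fun i : Fin (Nat.find h) => (stepF A M B x)^[i] [true]) := by
    intro a b hab
    by_contra hne
    wlog hlt : (a : ℕ) < b generalizing a b
    · exact this hab.symm (Ne.symm hne) (by
        have : (a : ℕ) ≠ b := fun h => hne (Fin.ext h)
        omega)
    have hb := b.2
    obtain ⟨e, he⟩ := Nat.exists_eq_add_of_le hb.le
    dsimp only at hab
    have h1 : (stepF A M B x)^[e + a] [true] = [] := by
      rw [Function.iterate_add_apply, hab, ← Function.iterate_add_apply,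
        Nat.add_comm e b, ← he]
      exact Nat.find_spec h
    exact Nat.find_min h (by omega) h1
  refine (card_short (B₀ + 1) _ _ hinj fun i => ?_)
  rcases iter_reach A M B x i with h1 | ⟨u, hu, h1⟩
  · rw [h1]
    simp
  · rw [h1, List.length_cons]
    have := hB u hu
    omega

end Pool.Agent.TH683.AT
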