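import Pool.Agent.TH683.AL.Defs

/-!
# Memory, alternations and time relative to an oracle

(Continues `Pool.Agent.H620R2.Gauge.Defs` and `Pool.Agent.TH683.AL.Defs`.)
-/

set_option autoImplicit false

namespace Pool.Agent.TH683.AT

open Pool.Agent.NPC Pool.Agent.H620R2.Gauge Pool.Agent.TH683.CP Pool.Agent.TH683.AL

/-- The language `L` is decided with `s(n) + O(log n)` bits of memory relative to `A`: some
algorithm (`SAlg`: in every round, from the input and the content of the memory, it computes in
polynomial time a question to the oracle, and then the new content of the memory, or it stops with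
an output) has a memory of at most `s(n) + c (log n + 1)` bits on the inputs of length `n`, and
stops with output `[true]` if the input is in `L` and with another output if it is not. There is no
bound on the number of rounds. -/
def IsMem (A : Oracle) (s : ℕ → ℕ) (L : Set (List Bool)) : Prop :=
  ∃ (M : SAlg) (c : ℕ), ∀ x,
    (∀ u, M.Reach A x u → u.length ≤ s x.length + c * (Nat.log 2 x.length + 1)) ∧
    ∃ u z, M.Reach A x u ∧ M.act (pairBits x u) = true :: z ∧ (x ∈ L ↔ z = [true])

/-- The string of `s(|x|)` ones can be computed from `x` in polynomial time. -/
def Nice (s : ℕ → ℕ) : Prop :=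
  ∃ F : List Bool → List Bool, PolyTime F ∧ ∀ x, F x = List.replicate (s x.length) true

/-- The language `L` is decided with `k(n)` alternations in time `2 ^ O(h(n)) n ^ O(1)` relative to
`A`: `x` is in `L` if and only if an algorithm which gets `x`, the list of the chosen strings and
the string of `2 ^ h(n)` ones, and whose time is polynomial in their lengths, accepts, with `k(n)`
alternating quantifiers over strings of length at most `p(n + 2 ^ h(n))` in front. The functions
`k` and `h` are arbitrary. -/
def IsAltTime (A : Oracle) (k h : ℕ → ℕ) (L : Set (List Bool)) : Prop :=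
  ∃ (V : List Bool → List Bool) (p : Polynomial ℕ), IsFP A V ∧ ∀ x, x ∈ L ↔
    Alt (p.eval (x.length + 2 ^ h x.length))
      (Acc V (pairBits (List.replicate (2 ^ h x.length) true) x)) (k x.length) true []

/-- The same with a majority quantifier over the strings of length `r(n + 2 ^ h(n))` before the
alternating ones, and with an advice string of polynomial length. -/
def IsMajAltTimePoly (A : Oracle) (k h : ℕ → ℕ) (L : Set (List Bool)) : Prop :=
  ∃ (V : List Bool → List Bool) (p r q : Polynomial ℕ) (a : ℕ → List Bool), IsFP A V ∧
    (∀ n, (a n).length ≤ q.eval n) ∧ ∀ x, x ∈ L ↔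
      (2 : ℝ) ^ r.eval (x.length + 2 ^ h x.length) / 2 <
        Nat.card {w : Fin (r.eval (x.length + 2 ^ h x.length)) → Bool //
          Alt (p.eval (x.length + 2 ^ h x.length))
            (Acc V (pairBits (List.replicate (2 ^ h x.length) true)
              (pairBits x (a x.length)))) (k x.length) true [List.ofFn w]}

end Pool.Agent.TH683.AT
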