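import Pool.Agent.TH683.AT.Par
import Pool.Agent.TH683.AL.Main

/-!
# Few alternations in a short time do not compute parities: the event
-/

set_option autoImplicit false

namespace Pool.Agent.TH683.AT

open Pool.Agent.NPC Pool.Agent.H620R2.Gauge Finset H568R2 Pool.Agent.H676 Pool.Agent.H943R3.PP
open Pool.Agent.TH683.CP Pool.Agent.TH683.AL MeasureTheory Filter

/-- the length of the nested pairs -/
noncomputable def LL (θ : Par3) (S : Polynomial ℕ) : Polynomial ℕ :=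
  2 * Polynomial.X + 2 + θ.q + (2 * θ.r + 1) + S * (2 * θ.p + 1)

/-- the length of the inputs of the algorithm -/
noncomputable def LL' (θ : Par3) (S : Polynomial ℕ) : Polynomial ℕ := 9 * LL θ S + 4 * S + 7

/-- the number of the inputs -/
noncomputable def KK (θ : Par3) : Polynomial ℕ := 3 * (θ.q + 8 * Polynomial.X + 8)

/-- the polynomial for the final bound -/
noncomputable def PP (θ : Par3) (S : Polynomial ℕ) : Polynomial ℕ :=
  2 * LL θ S + 2 * S + 16 * Polynomial.X + 300 + KK θ + θ.M.p.comp (LL' θ S)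

theorem eval_LL (θ : Par3) (S : Polynomial ℕ) (n : ℕ) : (LL θ S).eval n =
    2 * n + 2 + θ.q.eval n + (2 * θ.r.eval n + 1) + S.eval n * (2 * θ.p.eval n + 1) := by
  simp [LL]

theorem eval_LL' (θ : Par3) (S : Polynomial ℕ) (n : ℕ) : (LL' θ S).eval n =
    9 * (LL θ S).eval n + 4 * S.eval n + 7 := by
  simp [LL']

theorem eval_KK (θ : Par3) (n : ℕ) : (KK θ).eval n = 3 * (θ.q.eval n + 8 * n + 8) := by
  simp [KK]

theorem eval_PP (θ : Par3) (S : Polynomial ℕ) (n : ℕ) : (PP θ S).eval n =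
    2 * (LL θ S).eval n + 2 * S.eval n + 16 * n + 300 + (KK θ).eval n +
      θ.M.p.eval ((LL' θ S).eval n) := by
  simp [PP, Polynomial.eval_comp]

/-- the input of the algorithm -/
def iy (n κ : ℕ) (i : ℕ) (h : List Bool) : List Bool :=
  pairBits (List.replicate (2 ^ κ) true) (pairBits (bitsOf n i) h)

/-- the event -/
def EvT (θ : Par3) (n j N κ η : ℕ) (a : Fin N → Bool) : Prop :=
  ∃ h ∈ W_strs (θ.q.eval n), ∀ i ∈ Finset.range ((KK θ).eval n),
    (0 < maj (θ.p.eval (n + 2 ^ η)) (lf θ.M N (κ + 1)) κ (θ.r.eval (n + 2 ^ η)) (iy n η i h) a ↔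
      par (blkJ N j (bitsOf n i)) a = true)

open Classical in
theorem evT_bound (θ : Par3) (S : Polynomial ℕ) {n j N κ η u : ℕ}
    (hP : (PP θ S).eval (n + 2 ^ η) ≤ 2 ^ u) (hj : j ≤ S.eval n) (hu : 12 * u * (κ + 1) ≤ j)
    (hK : (KK θ).eval n ≤ 2 ^ n) (hN : 2 ^ (n + j + 1) ≤ N + 1) :
    Ex unif (fun a : Fin N → Bool => if EvT θ n j N κ η a then (1 : ℝ) else 0) ≤
      (1 / 2) ^ (4 * n) := by
  set W := n + 2 ^ η with hW
  have h2η : 1 ≤ 2 ^ η := Nat.one_le_two_pow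
  set t : ℕ := 2 ^ u with ht
  have ht1 : 1 ≤ t := Nat.one_le_two_pow
  have htR : (1 : ℝ) ≤ (t : ℝ) := by exact_mod_cast ht1
  set q : ℝ := 1 / (24 * t) with hq
  have hq0 : 0 ≤ q := by positivity
  have hq1 : q ≤ 1 / 3 := by
    rw [hq, div_le_div_iff₀ (by positivity) (by norm_num)]
    linarith
  have hE := eval_PP θ S W
  have hE' := eval_LL' θ S W
  have hE'' := eval_LL θ S W
  have hnW : n ≤ W := by omega
  have hSW : S.eval n ≤ S.eval W := eval_mono _ hnW
  have hqW : θ.q.eval n ≤ θ.q.eval W := eval_mono _ hnW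
  have hKW : (KK θ).eval n ≤ (KK θ).eval W := eval_mono _ hnW
  have hu8 : 8 ≤ u := by
    by_contra hcon
    have h1 : 2 ^ u ≤ 2 ^ 7 := Nat.pow_le_pow_right (by norm_num) (by omega)
    omega
  have hκj : κ + 1 ≤ j := by
    have : 1 * (κ + 1) ≤ 12 * u * (κ + 1) := Nat.mul_le_mul_right _ (by omega)
    omega
  have hκS : κ ≤ S.eval W := by omega
  set r : ℕ := 2 ^ (10 * u) with hr
  set s : ℕ := 2 ^ j / (2 ^ (10 * u) + 1) with hs
  set ℓ : ℕ := 2 * W + 2 + θ.q.eval n with hℓ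
  have hlen : ℓ + (2 * θ.r.eval W + 1) + κ * (2 * θ.p.eval W + 1) ≤ (LL θ S).eval W := by
    have := Nat.mul_le_mul_right (2 * θ.p.eval W + 1) hκS
    omega
  have hcK : (Finset.range ((KK θ).eval n)).card = (KK θ).eval n := Finset.card_range _
  have h1 := comb2 (I := Fin N) ht1 hq0 hq1 (θ.p.eval W) (lf θ.M N (κ + 1)) κ ℓ
    (θ.r.eval W) (by
    intro y hy
    have h2 := dtr_out θ.M N (pairBits (bits (dec (κ + 1) y).1) (dec (κ + 1) y).2)
    refine h2.mono ?_
    have h3 := lf_len (κ + 1) y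
    calc θ.M.p.eval (pairBits (bits (dec (κ + 1) y).1) (dec (κ + 1) y).2).length ≤
          θ.M.p.eval ((LL' θ S).eval W) := eval_mono _ (by omega)
      _ ≤ t := by omega) (Finset.range ((KK θ).eval n)) (fun i => blkJ N j (bitsOf n i)) (by
    intro i hi i' hi' hne
    rw [Finset.mem_range] at hi hi'
    apply blkJ_disj
    · rw [length_bitsOf, length_bitsOf]
    · intro h
      exact hne (bitsOf_inj (by omega) (by omega) h)) (W_strs (θ.q.eval n))
    (fun i h => iy n η i h) (by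
    intro i _ h hh
    have h3 := W_length_of_mem hh
    unfold iy
    rw [length_pairBits, length_pairBits, List.length_replicate, length_bitsOf]
    omega) r s (by
      rw [hcK]
      have e1 : (KK θ).eval n ≤ 2 ^ u := by omega
      have e2 : θ.r.eval W + 3 ≤ 2 ^ u := by omega
      have e3 : 2 * (KK θ).eval n ^ 2 * (θ.r.eval W + 3) * t ≤
          2 * (2 ^ u) ^ 2 * 2 ^ u * 2 ^ u := by
        gcongr
      have e4 : 2 * (2 ^ u) ^ 2 * 2 ^ u * 2 ^ u = 2 * 2 ^ (4 * u) := by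
        rw [show 4 * u = u + u + u + u by ring, pow_add, pow_add, pow_add]
        ring
      have e5 : 1 ≤ 2 ^ (4 * u) := Nat.one_le_two_pow
      have e6 : 144 ≤ 2 ^ (2 * u) := by
        calc 144 ≤ 2 ^ 16 := by norm_num
          _ ≤ 2 ^ (2 * u) := Nat.pow_le_pow_right (by norm_num) (by omega)
      calc 16 * (2 * (KK θ).eval n ^ 2 * (θ.r.eval W + 3) * t + 1) ^ 2 ≤
            16 * (3 * 2 ^ (4 * u)) ^ 2 := by
            gcongr
            omega
        _ = 144 * (2 ^ (4 * u) * 2 ^ (4 * u)) := by ring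
        _ ≤ 2 ^ (2 * u) * (2 ^ (4 * u) * 2 ^ (4 * u)) := Nat.mul_le_mul_right _ e6
        _ = r := by
          rw [hr, ← pow_add, ← pow_add]
          congr 1
          ring) (by
    intro i _
    rw [blkJ_card N j _ (by rw [length_bitsOf]; exact hN)]
    exact Nat.mul_div_le _ _)
  have h1' : Ex unif (fun a : Fin N → Bool => if EvT θ n j N κ η a then (1 : ℝ) else 0) ≤
      κ * 2 ^ (ℓ + (2 * θ.r.eval W + 1) + κ * (2 * θ.p.eval W + 1) + 2) *
        (12 * t * q) ^ (t + 1) + ((KK θ).eval n : ℕ) * ((r + 1) * (1 - q ^ κ) ^ s) +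
        (W_strs (θ.q.eval n)).card * (3 / 4) ^ ((KK θ).eval n) := by
    rw [hcK] at h1
    refine le_trans (le_of_eq ?_) h1
    refine congrArg (Ex unif) (funext fun a => ?_)
    by_cases h : EvT θ n j N κ η a
    · have h' := h
      unfold EvT at h'
      rw [if_pos h]
      rw [if_pos (by convert h')]
    · have h' := h
      unfold EvT at h'
      rw [if_neg h]
      rw [if_neg (by convert h')]
  refine h1'.trans ?_
  have hqt : 12 * (t : ℝ) * q = 1 / 2 := by
    rw [hq]; field_simp; norm_num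
  rw [hqt]
  have hexpT : Real.exp (-(2 : ℝ) ^ u) ≤ (1 / 2) ^ 2 ^ u := by
    have e1 : Real.exp (-(2 : ℝ) ^ u) = (Real.exp (-1)) ^ 2 ^ u := by
      rw [← Real.exp_nat_mul]; congr 1; push_cast; ring
    rw [e1]
    apply pow_le_pow_left₀ (Real.exp_pos _).le
    rw [Real.exp_neg, one_div]
    apply inv_anti₀ (by norm_num)
    have := Real.add_one_le_exp (1 : ℝ)
    linarith
  have hp2 : ∀ a b : ℕ, a ≤ b → ((1 : ℝ) / 2) ^ b ≤ (1 / 2) ^ a := fun a b h =>
    pow_le_pow_of_le_one (by norm_num) (by norm_num) h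
  have hcan : ∀ a b : ℕ, a ≤ b → (2 : ℝ) ^ a * (1 / 2) ^ b = (1 / 2) ^ (b - a) := by
    intro a b h
    obtain ⟨c, rfl⟩ := Nat.exists_eq_add_of_le h
    rw [pow_add, Nat.add_sub_cancel_left, ← mul_assoc, ← mul_pow]
    norm_num
  -- first term
  have T1 : (κ : ℝ) * 2 ^ (ℓ + (2 * θ.r.eval W + 1) + κ * (2 * θ.p.eval W + 1) + 2) *
      (1 / 2) ^ (t + 1) ≤ (1 / 2) ^ (4 * n + 2) := by
    have h3 : (κ : ℝ) ≤ 2 ^ κ := by exact_mod_cast (Nat.lt_two_pow_self (n := κ)).le
    calc _ ≤ (2 : ℝ) ^ κ * 2 ^ (ℓ + (2 * θ.r.eval W + 1) + κ * (2 * θ.p.eval W + 1) + 2) *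
          (1 / 2) ^ (t + 1) := by gcongr
      _ = (2 : ℝ) ^ (κ + (ℓ + (2 * θ.r.eval W + 1) + κ * (2 * θ.p.eval W + 1) + 2)) *
          (1 / 2) ^ (t + 1) := by rw [← pow_add]
      _ ≤ _ := by
          rw [hcan _ _ (by omega)]
          exact hp2 _ _ (by omega)
  -- second term
  have hxs : (2 : ℝ) ^ u ≤ q ^ κ * s := by
    have hkey : 2 ^ ((5 + u) * κ) * 2 ^ u ≤ s := by
      have h1 : 2 ^ j / 2 ^ (10 * u + 1) ≤ s := by
        apply Nat.div_le_div_left
        · rw [pow_succ]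
          have := Nat.one_le_two_pow (n := 10 * u)
          omega
        · positivity
      refine le_trans ?_ h1
      have hk1 : κ ≤ u * κ := Nat.le_mul_of_pos_left κ (by omega)
      have e1 : 12 * u * (κ + 1) = 12 * (u * κ) + 12 * u := by ring
      have e2 : (5 + u) * κ = 5 * κ + u * κ := by ring
      rw [Nat.pow_div (by omega) (by norm_num), ← pow_add]
      exact Nat.pow_le_pow_right (by norm_num) (by omega)
    have h1 : (2 : ℝ) ^ ((5 + u) * κ) * 2 ^ u ≤ (s : ℝ) := by exact_mod_cast hkey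
    have h2 : 1 ≤ q ^ κ * 2 ^ ((5 + u) * κ) := by
      rw [pow_mul (2 : ℝ) (5 + u) κ, ← mul_pow]
      apply one_le_pow₀
      rw [hq, ht, pow_add, one_div, inv_mul_eq_div, le_div_iff₀ (by positivity), one_mul]
      push_cast
      have : (0 : ℝ) < 2 ^ u := by positivity
      nlinarith
    calc (2 : ℝ) ^ u = 1 * 2 ^ u := by ring
      _ ≤ (q ^ κ * 2 ^ ((5 + u) * κ)) * 2 ^ u := by gcongr
      _ = q ^ κ * (2 ^ ((5 + u) * κ) * 2 ^ u) := by ring
      _ ≤ q ^ κ * s := by gcongr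
  have hqk1 : q ^ κ ≤ 1 := pow_le_one₀ hq0 (by linarith)
  have hexp : (1 - q ^ κ) ^ s ≤ (1 / 2) ^ 2 ^ u := by
    calc (1 - q ^ κ) ^ s ≤ (Real.exp (-(q ^ κ))) ^ s := by
          apply pow_le_pow_left₀ (by linarith)
          have := Real.add_one_le_exp (-(q ^ κ))
          linarith
      _ = Real.exp (-(q ^ κ * s)) := by rw [← Real.exp_nat_mul]; congr 1; ring
      _ ≤ Real.exp (-(2 : ℝ) ^ u) := by
          apply Real.exp_le_exp.2
          linarith
      _ ≤ _ := hexpT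
  have hu128 : 11 * u + 1 ≤ 2 ^ u / 2 := by
    have : ∀ v, 22 * (v + 8) + 2 ≤ 2 ^ (v + 8) := by
      intro v
      induction v with
      | zero => norm_num
      | succ v ih =>
        have : 2 ^ (v + 1 + 8) = 2 * 2 ^ (v + 8) := by ring
        omega
    have h3 := this (u - 8)
    rw [Nat.sub_add_cancel hu8] at h3
    omega
  have T2 : (((KK θ).eval n : ℕ) : ℝ) * ((r + 1) * (1 - q ^ κ) ^ s) ≤ (1 / 2) ^ (4 * n + 2) := by
    have h3 : (((KK θ).eval n : ℕ) : ℝ) ≤ 2 ^ u := by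
      have : (KK θ).eval n ≤ 2 ^ u := by omega
      exact_mod_cast this
    have h4 : ((r : ℝ) + 1) ≤ 2 ^ (10 * u + 1) := by
      rw [hr, pow_succ]
      push_cast
      have : (1 : ℝ) ≤ 2 ^ (10 * u) := one_le_pow₀ (by norm_num)
      linarith
    calc _ ≤ (2 : ℝ) ^ u * (2 ^ (10 * u + 1) * (1 / 2) ^ 2 ^ u) := by gcongr
      _ = 2 ^ (u + (10 * u + 1)) * (1 / 2) ^ 2 ^ u := by rw [pow_add]; ring
      _ ≤ _ := by
          rw [hcan _ _ (by omega)]
          exact hp2 _ _ (by omega)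
  -- third term
  have T3 : ((W_strs (θ.q.eval n)).card : ℝ) * (3 / 4) ^ ((KK θ).eval n) ≤
      (1 / 2) ^ (4 * n + 2) := by
    have h5 : ((W_strs (θ.q.eval n)).card : ℝ) ≤ 2 ^ (θ.q.eval n + 1) := by
      exact_mod_cast W_card_strs _
    have h6 : ((3 : ℝ) / 4) ^ ((KK θ).eval n) ≤ (1 / 2) ^ (θ.q.eval n + 8 * n + 8) := by
      rw [eval_KK, pow_mul]
      apply pow_le_pow_left₀ (by positivity)
      norm_num
    calc _ ≤ (2 : ℝ) ^ (θ.q.eval n + 1) * (1 / 2) ^ (θ.q.eval n + 8 * n + 8) := by gcongr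
      _ ≤ _ := by
          rw [hcan _ _ (by omega)]
          exact hp2 _ _ (by omega)
  have hfin : (1 / 2 : ℝ) ^ (4 * n + 2) + (1 / 2) ^ (4 * n + 2) + (1 / 2) ^ (4 * n + 2) ≤
      (1 / 2) ^ (4 * n) := by
    rw [pow_add]
    have : (0 : ℝ) ≤ (1 / 2) ^ (4 * n) := by positivity
    linarith
  linarith

end Pool.Agent.TH683.AT
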