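import Pool.Agent.TH683.AT.Ev

/-!
# Few alternations in a short time do not compute parities
-/

set_option autoImplicit false

namespace Pool.Agent.TH683.AT

open Pool.Agent.NPC Pool.Agent.H620R2.Gauge Finset H568R2 Pool.Agent.H676 Pool.Agent.H943R3.PP
open Pool.Agent.TH683.CP Pool.Agent.TH683.AL MeasureTheory Filter

/-- the parameters decide the language with `k` alternations in the time given by `h` -/
def EzT (θ : Par3) (A : Oracle) (k h : ℕ → ℕ) (L : Set (List Bool)) : Prop :=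
  ∃ (V : List Bool → List Bool) (a : ℕ → List Bool),
    (∀ x, θ.M.out A x = some (V x)) ∧ (∀ n, (a n).length ≤ θ.q.eval n) ∧
    ∀ x, x ∈ L ↔ (2 : ℝ) ^ θ.r.eval (x.length + 2 ^ h x.length) / 2 <
      Nat.card {w : Fin (θ.r.eval (x.length + 2 ^ h x.length)) → Bool //
        Alt (θ.p.eval (x.length + 2 ^ h x.length))
          (Acc V (pairBits (List.replicate (2 ^ h x.length) true)
            (pairBits x (a x.length)))) (k x.length) true [List.ofFn w]}

theorem mem_ezT {A : Oracle} {k h : ℕ → ℕ} {L : Set (List Bool)} (hL : IsMajAltTimePoly A k h L) :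
    ∃ θ, EzT θ A k h L := by
  obtain ⟨V, p, r, q, a, ⟨M, hM⟩, ha, hx⟩ := hL
  exact ⟨⟨M, p, r, q⟩, V, a, hM, ha, hx⟩

theorem scaleP (P : Polynomial ℕ) (n η : ℕ) :
    P.eval (n + 2 ^ η) ≤ 2 ^ ((P.eval 1 + P.natDegree) * (η + Nat.log 2 n + 1)) := by
  set a : ℕ := 2 ^ (Nat.log 2 n + 1) with ha
  set b : ℕ := 2 ^ η with hb
  have h1 : n + 1 ≤ a := Nat.lt_pow_succ_log_self (by norm_num) n
  have hb1 : 1 ≤ b := Nat.one_le_two_pow
  have h2 : n + b ≤ a * b := by nlinarith
  have h3 : a * b = 2 ^ (η + Nat.log 2 n + 1) := by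
    rw [ha, hb, ← pow_add]
    congr 1
    omega
  rw [h3] at h2
  set w := η + Nat.log 2 n + 1 with hw
  have h4 := Y_poly_le P (n + b) (by omega)
  have h5 : P.eval 1 ≤ 2 ^ (P.eval 1 * w) := by
    calc P.eval 1 ≤ 2 ^ P.eval 1 := Nat.lt_two_pow_self.le
      _ ≤ _ := Nat.pow_le_pow_right (by norm_num) (Nat.le_mul_of_pos_right _ (by omega))
  calc P.eval (n + b) ≤ P.eval 1 * (n + b) ^ P.natDegree := h4
    _ ≤ 2 ^ (P.eval 1 * w) * (2 ^ w) ^ P.natDegree :=
        Nat.mul_le_mul h5 (Nat.pow_le_pow_left h2 _)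
    _ = 2 ^ ((P.eval 1 + P.natDegree) * w) := by
        rw [← pow_mul, ← pow_add]
        congr 1
        ring

theorem poly_small (P : Polynomial ℕ) : ∃ n₀, ∀ n ≥ n₀, P.eval n ≤ 2 ^ n := by
  have h1 := (isLittleO_pow_const_const_pow_of_one_lt (R := ℝ) (P.natDegree + 1)
    (r := 2) (by norm_num)).def (zero_lt_one)
  obtain ⟨n₀, hn₀⟩ := eventually_atTop.1 h1
  refine ⟨max n₀ (P.eval 1 + 1), fun n hn => ?_⟩
  have h2 := hn₀ n (by omega)
  have h4 : n ^ (P.natDegree + 1) ≤ 2 ^ n := by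
    rw [one_mul, Real.norm_eq_abs, Real.norm_eq_abs, abs_of_nonneg (by positivity),
      abs_of_nonneg (by positivity)] at h2
    exact_mod_cast h2
  have h5 := Y_poly_le P n (by omega)
  calc P.eval n ≤ P.eval 1 * n ^ P.natDegree := h5
    _ ≤ n * n ^ P.natDegree := Nat.mul_le_mul_right _ (by omega)
    _ = n ^ (P.natDegree + 1) := by ring
    _ ≤ 2 ^ n := h4

theorem ezT_right (θ : Par3) (S : Polynomial ℕ) : ∃ Q : Polynomial ℕ,
    ∀ (A : Oracle) (k h s : ℕ → ℕ), EzT θ A k h (parS A s) → ∀ n N : ℕ, s n ≤ S.eval n →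
    k n ≤ S.eval n → h n ≤ S.eval n → (KK θ).eval n ≤ 2 ^ n →
    2 ^ (Q.eval (n + 2 ^ S.eval n) + n + S.eval n + 2) ≤ N →
    EvT θ n (s n) N (k n) (h n) (pre N A) := by
  classical
  obtain ⟨qb, hqb⟩ := Alg.out_local θ.M
  refine ⟨qb.comp (LL' θ S), ?_⟩
  rintro A k h s ⟨V, a, hM, ha, hx⟩ n N hs hk hh hK hN
  set W := n + 2 ^ h n with hW
  rw [Polynomial.eval_comp] at hN
  have hWb : W ≤ n + 2 ^ S.eval n := by
    have : 2 ^ h n ≤ 2 ^ S.eval n := Nat.pow_le_pow_right (by norm_num) hh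
    omega
  have hV : ∀ y : List Bool, y.length ≤ (LL' θ S).eval W →
      (V y = [true] ↔ leaf θ.M N y (pre N A) = true) := by
    intro y hy
    obtain ⟨Q, _, hQl, hQA⟩ := hqb A y
    have h1 : θ.M.out (orc N (pre N A)) y = θ.M.out A y := by
      apply hQA
      intro q hq
      apply orc_pre
      have h2 := idx_lt q
      have h3 : q.length ≤ qb.eval ((LL' θ S).eval (n + 2 ^ S.eval n)) :=
        (hQl q hq).trans (eval_mono _ (hy.trans (eval_mono _ hWb)))
      have h4 : 2 ^ (q.length + 1) ≤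
          2 ^ (qb.eval ((LL' θ S).eval (n + 2 ^ S.eval n)) + n + S.eval n + 2) :=
        Nat.pow_le_pow_right (by norm_num) (by omega)
      omega
    unfold leaf
    rw [h1, hM y, decide_eq_true_eq, Option.some.injEq]
  refine ⟨a n, W_mem_strs (ha n), fun i hi => ?_⟩
  have hlen : (bitsOf n i).length = n := length_bitsOf n i
  have h1 := hx (bitsOf n i)
  rw [hlen] at h1
  have hN' : 2 ^ ((bitsOf n i).length + s n + 1) ≤ N + 1 := by
    rw [hlen]
    have h4 : 2 ^ (n + s n + 1) ≤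
          2 ^ (qb.eval ((LL' θ S).eval (n + 2 ^ S.eval n)) + n + S.eval n + 2) :=
        Nat.pow_le_pow_right (by norm_num) (by omega)
    omega
  have h2 := blkJ_par N (s n) A (bitsOf n i) hN'
  have hkW : k n ≤ S.eval W := hk.trans (eval_mono _ (Nat.le_add_right _ _))
  have h3 := maj_iff3 A θ.M V (θ.p.eval W) (k n) (θ.r.eval W)
    (4 * θ.r.eval W + 3 + k n * (4 * θ.p.eval W + 2)) (iy n (h n) i (a n)) (by
      intro ws hws
      apply hV
      unfold iy
      rw [length_pairBits, length_pairBits, length_pairBits, bits_length, hlen,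
        List.length_replicate, eval_LL', eval_LL]
      have h5 : (a n).length ≤ θ.q.eval W := (ha n).trans (eval_mono _ (Nat.le_add_right _ _))
      have h6 : k n * (4 * θ.p.eval W + 2) ≤ S.eval W * (4 * θ.p.eval W + 2) :=
        Nat.mul_le_mul_right _ hkW
      have h7 : S.eval W * (4 * θ.p.eval W + 2) = 2 * (S.eval W * (2 * θ.p.eval W + 1)) := by
        ring
      omega) le_rfl
  rw [h2, h3]
  have h8 : bitsOf n i ∈ parS A s ↔ Odd (cntJ A (s n) (bitsOf n i)) := by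
    unfold parS
    rw [Set.mem_ofPred_eq, hlen]
  rw [← h8, h1]
  rfl

/-- the event at length `n` -/
def EmT (θ : Par3) (e : ℕ) (s : ℕ → ℕ) (N : ℕ → ℕ) (n : ℕ) : Set Oracle :=
  {A | ∃ κ η, 12 * (e * (η + Nat.log 2 n + 1)) * (κ + 1) ≤ s n ∧
    EvT θ n (s n) (N n) κ η (pre (N n) A)}

theorem prob_EmT (θ : Par3) (S : Polynomial ℕ) (s : ℕ → ℕ) (hs : ∀ n, s n ≤ S.eval n) (N : ℕ → ℕ)
    (hN : ∀ n, 2 ^ (n + s n + 1) ≤ N n + 1) :
    ∃ n₀ : ℕ, ∀ n ≥ n₀,
      ranO (EmT θ ((PP θ S).eval 1 + (PP θ S).natDegree) s N n) ≤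
        ENNReal.ofReal ((1 / 2) ^ n) := by
  classical
  set e := (PP θ S).eval 1 + (PP θ S).natDegree with he
  have he1 : 1 ≤ e := by
    have := eval_PP θ S 1
    omega
  obtain ⟨n₁, h₁⟩ := poly_small (KK θ)
  obtain ⟨n₂, h₂⟩ := poly_small (S + 1)
  refine ⟨max n₁ n₂, fun n hn => ?_⟩
  have hK := h₁ n (by omega)
  have hS := h₂ n (by omega)
  simp only [Polynomial.eval_add, Polynomial.eval_one] at hS
  have hsn := hs n
  set I : Finset (ℕ × ℕ) := ((Finset.range (S.eval n + 1)) ×ˢ (Finset.range (S.eval n + 1))).filter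
      (fun x => 12 * (e * (x.2 + Nat.log 2 n + 1)) * (x.1 + 1) ≤ s n) with hI
  have hsub : EmT θ e s N n ⊆ ⋃ x ∈ I,
      {A : Oracle | EvT θ n (s n) (N n) x.1 x.2 (pre (N n) A)} := by
    rintro A ⟨κ, η, hl, hA⟩
    have h3 : κ + 1 ≤ s n := by
      refine le_trans (Nat.le_mul_of_pos_left _ ?_) hl
      have : 0 < e * (η + Nat.log 2 n + 1) := Nat.mul_pos (by omega) (by omega)
      omega
    have h4 : η ≤ s n := by
      have h5 : η ≤ e * (η + Nat.log 2 n + 1) :=
        (by omega : η ≤ η + Nat.log 2 n + 1).trans (Nat.le_mul_of_pos_left _ (by omega))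
      have h6 : 12 * (e * (η + Nat.log 2 n + 1)) ≤ 12 * (e * (η + Nat.log 2 n + 1)) * (κ + 1) :=
        Nat.le_mul_of_pos_right _ (by omega)
      omega
    simp only [Set.mem_iUnion, exists_prop]
    refine ⟨(κ, η), ?_, hA⟩
    rw [hI, Finset.mem_filter, Finset.mem_product, Finset.mem_range, Finset.mem_range]
    exact ⟨⟨by dsimp only; omega, by dsimp only; omega⟩, hl⟩
  refine (measure_mono hsub).trans ((measure_biUnion_finset_le _ _).trans ?_)
  have h1 : ∀ x ∈ I,
      ranO {A : Oracle | EvT θ n (s n) (N n) x.1 x.2 (pre (N n) A)} ≤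
        ENNReal.ofReal ((1 / 2) ^ (4 * n)) := by
    rintro ⟨κ, η⟩ hx
    rw [hI, Finset.mem_filter, Finset.mem_product, Finset.mem_range, Finset.mem_range] at hx
    obtain ⟨⟨hj, hk⟩, hl⟩ := hx
    dsimp only at hj hk hl ⊢
    refine (ranO_pre _).trans (ENNReal.ofReal_le_ofReal ?_)
    exact evT_bound θ S (scaleP (PP θ S) n η) hsn hl hK (hN n)
  refine (Finset.sum_le_sum h1).trans ?_
  rw [Finset.sum_const, nsmul_eq_mul, ← ENNReal.ofReal_natCast, ← ENNReal.ofReal_mul (by positivity)]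
  apply ENNReal.ofReal_le_ofReal
  have h2 : ((I.card : ℕ) : ℝ) ≤ 2 ^ n * 2 ^ n := by
    have h3 : I.card ≤ 2 ^ n * 2 ^ n := by
      refine (Finset.card_filter_le _ _).trans ?_
      rw [Finset.card_product, Finset.card_range]
      exact Nat.mul_le_mul hS hS
    exact_mod_cast h3
  calc _ ≤ ((2 : ℝ) ^ n * 2 ^ n) * (1 / 2) ^ (4 * n) := by gcongr
    _ = (2 ^ n * (1 / 2) ^ n) * (2 ^ n * (1 / 2) ^ n) * (1 / 2) ^ n * (1 / 2) ^ n := by
        rw [show 4 * n = n + n + n + n by ring, pow_add, pow_add, pow_add]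
        ring
    _ ≤ 1 * 1 * 1 * (1 / 2) ^ n := by
        have h5 : (2 : ℝ) ^ n * (1 / 2) ^ n = 1 := by
          rw [← mul_pow]
          norm_num
        rw [h5]
        have h6 : ((1 : ℝ) / 2) ^ n ≤ 1 := pow_le_one₀ (by norm_num) (by norm_num)
        gcongr
    _ = (1 / 2) ^ n := by ring

theorem ae_EmT (θ : Par3) (S : Polynomial ℕ) (s : ℕ → ℕ) (hs : ∀ n, s n ≤ S.eval n) (N : ℕ → ℕ)
    (hN : ∀ n, 2 ^ (n + s n + 1) ≤ N n + 1) :
    ∀ᵐ A ∂ranO, ∃ n₀ : ℕ, ∀ n ≥ n₀,
      A ∉ EmT θ ((PP θ S).eval 1 + (PP θ S).natDegree) s N n := by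
  obtain ⟨n₀, h⟩ := prob_EmT θ S s hs N hN
  set e := (PP θ S).eval 1 + (PP θ S).natDegree with he
  have hsum : ∑' m, ranO (EmT θ e s N (n₀ + m)) ≠ ⊤ := by
    have h1 : ∑' m, ranO (EmT θ e s N (n₀ + m)) ≤ ∑' m : ℕ, (2⁻¹ : ENNReal) ^ m := by
      refine ENNReal.tsum_le_tsum fun m => ?_
      refine (h (n₀ + m) (by omega)).trans ?_
      have h2 : ENNReal.ofReal ((1 / 2) ^ (n₀ + m)) ≤ ENNReal.ofReal ((1 / 2) ^ m) := by
        apply ENNReal.ofReal_le_ofReal
        exact pow_le_pow_of_le_one (by norm_num) (by norm_num) (by omega)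
      refine h2.trans (le_of_eq ?_)
      rw [ENNReal.ofReal_pow (by norm_num), one_div, ENNReal.ofReal_inv_of_pos (by positivity)]
      simp
    refine ne_top_of_le_ne_top ?_ h1
    rw [ENNReal.tsum_geometric, ENNReal.one_sub_inv_two, inv_inv]
    exact ENNReal.ofNat_ne_top
  have h2 := ae_eventually_notMem hsum
  filter_upwards [h2] with A hA
  obtain ⟨n₁, hn₁⟩ := eventually_atTop.1 hA
  refine ⟨n₀ + n₁, fun m hm => ?_⟩
  have := hn₁ (m - n₀) (by omega)
  rwa [Nat.add_sub_cancel' (by omega)] at this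

theorem Nice.poly {s : ℕ → ℕ} (hs : Nice s) : ∃ S : Polynomial ℕ, ∀ n, s n ≤ S.eval n := by
  obtain ⟨F, hF, hFx⟩ := hs
  obtain ⟨q, hq⟩ := (Pool.Agent.H622R2.poly_of_polyTime hF).sz_le
  refine ⟨q.comp (Polynomial.C 4 * Polynomial.X + Polynomial.C 1), fun n => ?_⟩
  have h1 := length_lt_sz (F (List.replicate n true))
  have h0 : (F (List.replicate n true)).length = s n := by
    rw [hFx, List.length_replicate, List.length_replicate]
  rw [← h0]
  refine h1.le.trans ((hq _).trans ?_)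
  rw [Polynomial.eval_comp]
  apply eval_mono
  have h2 := sz_listBool_le (List.replicate n true)
  rw [List.length_replicate] at h2
  simp only [Polynomial.eval_add, Polynomial.eval_mul, Polynomial.eval_C, Polynomial.eval_X]
  exact h2

theorem countable_nice : {s : ℕ → ℕ | Nice s}.Countable := by
  refine (countable_polyTime.image
    (fun F n => (F (List.replicate n true)).length)).mono ?_
  rintro s ⟨F, hF, hFx⟩
  refine ⟨F, hF, funext fun n => ?_⟩
  dsimp only
  rw [hFx, List.length_replicate, List.length_replicate]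

/-- The parities of blocks of `2 ^ s(n)` bits of a random oracle are not decided with few
alternations in a short time. -/
theorem ae_lowT : ∀ᵐ A ∂ranO, ∀ s : ℕ → ℕ, Nice s → ∀ k h : ℕ → ℕ,
    IsMajAltTimePoly A k h (parS A s) →
    ∃ c, ∀ n, s n ≤ c * ((k n + 1) * (h n + Nat.log 2 n + 1)) := by
  have key : ∀ s : ℕ → ℕ, Nice s → ∀ᵐ A ∂ranO, ∀ k h : ℕ → ℕ,
      IsMajAltTimePoly A k h (parS A s) →
      ∃ c, ∀ n, s n ≤ c * ((k n + 1) * (h n + Nat.log 2 n + 1)) := by
    intro s hs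
    obtain ⟨S, hS⟩ := hs.poly
    choose Q hQ using fun θ => ezT_right θ S
    set N : Par3 → ℕ → ℕ := fun θ n => 2 ^ ((Q θ).eval (n + 2 ^ S.eval n) + n + S.eval n + 2)
      with hN
    have hN1 : ∀ θ n, 2 ^ (n + s n + 1) ≤ N θ n + 1 := by
      intro θ n
      have := hS n
      have h1 : 2 ^ (n + s n + 1) ≤ 2 ^ ((Q θ).eval (n + 2 ^ S.eval n) + n + S.eval n + 2) :=
        Nat.pow_le_pow_right (by norm_num) (by omega)
      exact h1.trans (Nat.le_succ _)
    filter_upwards [ae_all_iff.2 fun θ => ae_EmT θ S s hS (N θ) (hN1 θ)] with A hA k h hL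
    obtain ⟨θ, hθ⟩ := mem_ezT hL
    obtain ⟨n₀, hn₀⟩ := hA θ
    obtain ⟨n₁, hn₁⟩ := poly_small (KK θ)
    set e := (PP θ S).eval 1 + (PP θ S).natDegree with he
    have he1 : 1 ≤ e := by
      have := eval_PP θ S 1
      omega
    refine ⟨12 * e + ∑ i ∈ Finset.range (n₀ + n₁), s i, fun n => ?_⟩
    have hw1 : 1 ≤ (k n + 1) * (h n + Nat.log 2 n + 1) :=
      Nat.mul_pos (Nat.succ_pos _) (Nat.succ_pos _)
    by_cases hn : n < n₀ + n₁
    · have h1 : s n ≤ ∑ i ∈ Finset.range (n₀ + n₁), s i :=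
        Finset.single_le_sum (f := s) (fun i _ => Nat.zero_le _) (Finset.mem_range.2 hn)
      calc s n ≤ 12 * e + ∑ i ∈ Finset.range (n₀ + n₁), s i := by omega
        _ ≤ _ := Nat.le_mul_of_pos_right _ hw1
    · by_contra hcon
      push Not at hcon
      have hl : 12 * (e * (h n + Nat.log 2 n + 1)) * (k n + 1) ≤ s n := by
        refine le_trans ?_ hcon.le
        calc 12 * (e * (h n + Nat.log 2 n + 1)) * (k n + 1) =
              12 * e * ((k n + 1) * (h n + Nat.log 2 n + 1)) := by ring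
          _ ≤ _ := Nat.mul_le_mul_right _ (by omega)
      have h3 : k n + 1 ≤ s n := by
        refine le_trans (Nat.le_mul_of_pos_left _ ?_) hl
        have : 0 < e * (h n + Nat.log 2 n + 1) := Nat.mul_pos (by omega) (by omega)
        omega
      have h4 : h n ≤ s n := by
        have h5 : h n ≤ e * (h n + Nat.log 2 n + 1) :=
          (by omega : h n ≤ h n + Nat.log 2 n + 1).trans (Nat.le_mul_of_pos_left _ (by omega))
        have h6 : 12 * (e * (h n + Nat.log 2 n + 1)) ≤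
            12 * (e * (h n + Nat.log 2 n + 1)) * (k n + 1) :=
          Nat.le_mul_of_pos_right _ (by omega)
        omega
      have hSn := hS n
      exact hn₀ n (by omega) ⟨k n, h n, hl, hQ θ A k h s hθ n (N θ n) hSn (by omega) (by omega)
        (hn₁ n (by omega)) le_rfl⟩
  exact (ae_ball_iff countable_nice).2 key

end Pool.Agent.TH683.AT
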