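import Pool.Agent.TH683.AT.UpM
import Pool.Agent.TH683.AT.Low
import Pool.Agent.H620R2.Gauge.Upper

/-!
# The two classes
-/

set_option autoImplicit false

namespace Pool.Agent.TH683.AT

open Pool.Agent.NPC Pool.Agent.H620R2.Gauge Pool.Agent.TH683.CP Pool.Agent.TH683.AL Finset
open Pool.Agent.H943R3.PP N4 Pool.Agent.H622R2

theorem p_bits {α : Type} [TEnc α] : Poly (fun a : α => bits a) := by
  have h : PC (bits : α → List Bool) (fun x : List Bool => x) (fun a : α => bits a) :=
    (PC.id : PC (bits : α → List Bool) (bits : α → List Bool) (fun a => a))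
  exact PC.comp (g := fun x => x) (f := fun a : α => bits a) PC.rawIn h

/-- forget the last string of the list, and the advice -/
def gF (y : List Bool) : List Bool :=
  pairBits (bits ((((unbits (List (List Bool)) (unpair y).1).getD []).reverse.tail).reverse))
    (pairBits (unpair (unpair y).2).1 (unpair (unpair (unpair y).2).2).1)

theorem p_gF : Poly gF := by
  unfold gF
  have h2 : Poly (fun y : List Bool => unpair (unpair y).2) := poly_unpair.comp (Poly.snd poly_unpair)
  have h3 : Poly (fun y : List Bool => unpair (unpair (unpair y).2).2) :=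
    poly_unpair.comp (Poly.snd h2)
  exact poly_pairBits
    (p_bits.comp (Poly.reverse (Poly.tail (Poly.reverse (p_unb (Poly.fst poly_unpair))))))
    (poly_pairBits (Poly.fst h2) (Poly.fst h3))

theorem gF_eq (ws : List (List Bool)) (w0 pad x a : List Bool) :
    gF (pairBits (bits (ws ++ [w0])) (pairBits pad (pairBits x a))) =
      pairBits (bits ws) (pairBits pad x) := by
  unfold gF
  simp only [unpair_pairBits, unbits_bits, Option.getD_some, List.reverse_append,
    List.reverse_cons, List.reverse_nil, List.nil_append, List.singleton_append, List.tail_cons,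
    List.reverse_reverse]

theorem alt_gF (V : List Bool → List Bool) (w0 pad x a : List Bool) (m : ℕ) :
    ∀ (k : ℕ) (b : Bool) (ws : List (List Bool)),
      Alt m (Acc (fun y => V (gF y)) (pairBits pad (pairBits x a))) k b (ws ++ [w0]) ↔
        Alt m (Acc V (pairBits pad x)) k b ws := by
  intro k
  induction k with
  | zero =>
    intro b ws
    unfold Alt AL.Acc
    dsimp only
    rw [gF_eq]
  | succ k ih =>
    intro b ws
    cases b
    · simp only [Alt, ← List.cons_append, ih]
    · simp only [Alt, ← List.cons_append, ih]

theorem IsAltTime.maj {A : Oracle} {k h : ℕ → ℕ} {L : Set (List Bool)} (hL : IsAltTime A k h L) :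
    IsMajAltTimePoly A k h L := by
  obtain ⟨V, p, hV, hx⟩ := hL
  refine ⟨fun y => V (gF y), p, 0, 0, fun _ => [], hV.precomp p_gF, fun n => by simp, fun x => ?_⟩
  rw [hx x]
  have h1 : ∀ w : Fin ((0 : Polynomial ℕ).eval (x.length + 2 ^ h x.length)) → Bool,
      List.ofFn w = [] := by
    intro w
    rw [List.eq_nil_iff_length_eq_zero, List.length_ofFn, Polynomial.eval_zero]
  have h2 : ∀ w : Fin ((0 : Polynomial ℕ).eval (x.length + 2 ^ h x.length)) → Bool,
      (Alt (p.eval (x.length + 2 ^ h x.length))
        (Acc (fun y => V (gF y)) (pairBits (List.replicate (2 ^ h x.length) true)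
            (pairBits x []))) (k x.length) true [List.ofFn w] ↔
      Alt (p.eval (x.length + 2 ^ h x.length))
        (Acc V (pairBits (List.replicate (2 ^ h x.length) true) x)) (k x.length) true []) := by
    intro w
    exact alt_gF V _ _ _ _ _ _ _ []
  have h3 : Nat.card (Fin ((0 : Polynomial ℕ).eval (x.length + 2 ^ h x.length)) → Bool) = 1 := by
    rw [Nat.card_eq_fintype_card, Fintype.card_fun, Fintype.card_fin, Polynomial.eval_zero,
      pow_zero]
  by_cases hc : Alt (p.eval (x.length + 2 ^ h x.length))
        (Acc V (pairBits (List.replicate (2 ^ h x.length) true) x)) (k x.length) true []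
  · have h4 : Nat.card {w : Fin ((0 : Polynomial ℕ).eval (x.length + 2 ^ h x.length)) → Bool //
        Alt (p.eval (x.length + 2 ^ h x.length))
          (Acc (fun y => V (gF y)) (pairBits (List.replicate (2 ^ h x.length) true)
            (pairBits x []))) (k x.length) true [List.ofFn w]} = 1 := by
      rw [← h3]
      exact Nat.card_congr (Equiv.subtypeUnivEquiv fun w => (h2 w).2 hc)
    rw [h4]
    simp only [Polynomial.eval_zero, pow_zero, Nat.cast_one]
    norm_num [hc]
  · have h4 : Nat.card {w : Fin ((0 : Polynomial ℕ).eval (x.length + 2 ^ h x.length)) → Bool //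
        Alt (p.eval (x.length + 2 ^ h x.length))
          (Acc (fun y => V (gF y)) (pairBits (List.replicate (2 ^ h x.length) true)
            (pairBits x []))) (k x.length) true [List.ofFn w]} = 0 := by
      rw [Nat.card_eq_zero]
      exact Or.inl ⟨fun w => hc ((h2 w.1).1 w.2)⟩
    rw [h4]
    simp only [Polynomial.eval_zero, pow_zero, Nat.cast_zero]
    norm_num [hc]

end Pool.Agent.TH683.AT
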