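import Pool.Agent.TH683.AT.Conf
import Pool.Agent.H620R2.GaugeR.R1

/-!
# The algorithm that checks a claim about a computation
-/

set_option autoImplicit false

namespace Pool.Agent.TH683.AT

open Pool.Agent.NPC Pool.Agent.H620R2.Gauge Pool.Agent.TH683.CP Pool.Agent.TH683.AL Finset
open Pool.Agent.H943R3.PP N4 Pool.Agent.H622R2

/-- the game: the two configurations of the claim, the list of configurations chosen last, whether
it is the turn of the universal player -/
abbrev St4 : Type := List Bool × List Bool × List (List Bool) × Bool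

/-- the full list -/
def gl (σ : St4) : List (List Bool) := (σ.1 :: σ.2.2.1) ++ [σ.2.1]

/-- the list of the configurations given by a string -/
def dl (t : List Bool) : List (List Bool) := ((unbits (List (List Bool)) t).getD []).take t.length

/-- one move -/
def stepW (t : List Bool) (σ : St4) : St4 :=
  if σ.2.2.2 = true then ((gl σ).getD t.length σ.2.1, (gl σ).getD (t.length + 1) σ.2.1, [], false)
  else (σ.1, σ.2.1, dl t, true)

/-- the state after the moves of the list -/
def stW (ws : List (List Bool)) : St4 := ws.foldr stepW ([true], [], [], false)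

theorem p_gl {α : Type} [TEnc α] {σ : α → St4} (hσ : Poly σ) : Poly (fun a => gl (σ a)) := by
  unfold gl
  exact Poly.append (Poly.cons (Poly.fst hσ) (Poly.fst (Poly.snd (Poly.snd hσ))))
    (Poly.cons (Poly.fst (Poly.snd hσ)) (NPC.Poly.const []))

theorem p_unb {α : Type} [TEnc α] {t : α → List Bool} (ht : Poly t) :
    Poly (fun a => (unbits (List (List Bool)) (t a)).getD []) := by
  refine (Poly.optCases (o := fun a => unbits (List (List Bool)) (t a))
    (g := fun _ => ([] : List (List Bool))) (h := fun _ b => b)
    (poly_unbits.comp ht) (NPC.Poly.const _) (Poly.snd Poly.id)).congr fun y => ?_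
  cases unbits (List (List Bool)) (t y) <;> rfl

theorem p_dl {α : Type} [TEnc α] {t : α → List Bool} (ht : Poly t) :
    Poly (fun a => dl (t a)) := by
  unfold dl
  exact poly_take (p_unb ht) (UPoly.length ht)

theorem dl_length (t : List Bool) : (dl t).length ≤ t.length := by
  unfold dl
  rw [List.length_take]
  exact min_le_left _ _

theorem p_stepW {α : Type} [TEnc α] {t : α → List Bool} {σ : α → St4} (ht : Poly t)
    (hσ : Poly σ) : Poly (fun a => stepW (t a) (σ a)) := by
  have hc : Poly (fun a => (σ a).1) := Poly.fst hσ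
  have hc' : Poly (fun a => (σ a).2.1) := Poly.fst (Poly.snd hσ)
  have hf : Poly (fun a => (σ a).2.2.2) := Poly.snd (Poly.snd (Poly.snd hσ))
  have hl : Poly (fun a => (t a).length) := Poly.length ht
  unfold stepW
  refine Poly.ite (Poly.decide_bool hf) ?_ ?_
  · exact Poly.pair (Poly.getD (p_gl hσ) hl hc')
      (Poly.pair (Poly.getD (p_gl hσ) (Poly.add hl (NPC.Poly.const 1)) hc')
        (Poly.pair (NPC.Poly.const _) (NPC.Poly.const _)))
  · exact Poly.pair hc (Poly.pair hc' (Poly.pair (p_dl ht) (NPC.Poly.const _)))

theorem mem_gl {σ : St4} {B : ℕ} (h1 : sz σ.1 ≤ B) (h2 : sz σ.2.1 ≤ B) (h3 : sz σ.2.2.1 ≤ B)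
    (n : ℕ) : sz ((gl σ).getD n σ.2.1) ≤ B := by
  rw [List.getD_eq_getElem?_getD]
  rcases h : (gl σ)[n]? with _ | b
  · simpa using h2
  · have h4 := List.mem_of_getElem? h
    simp only [Option.getD_some]
    unfold gl at h4
    simp only [List.cons_append, List.mem_cons, List.mem_append, List.not_mem_nil, or_false] at h4
    rcases h4 with h5 | h5 | h5
    · rw [h5]; exact h1
    · have h6 := sz_le_of_mem h5
      omega
    · rw [h5]; exact h2

/-- bounds -/
theorem stW_bound {q : Polynomial ℕ}
    (hq : ∀ t : List Bool, sz (dl t) ≤ q.eval (sz t)) :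
    ∀ ws : List (List Bool),
      sz (stW ws).1 ≤ q.eval (sz ws) + 20 ∧ sz (stW ws).2.1 ≤ q.eval (sz ws) + 20
        ∧ sz (stW ws).2.2.1 ≤ q.eval (sz ws) + 20
  | [] => by
    simp only [stW, List.foldr_nil, sz_list_nil, sz_list_cons, sz_true]
    omega
  | t :: ws => by
    obtain ⟨h1, h2, h3⟩ := stW_bound hq ws
    have h4 : stW (t :: ws) = stepW t (stW ws) := rfl
    rw [h4]
    have h5 : sz ws < sz (t :: ws) := by
      rw [sz_list_cons]
      have := sz_pos t
      omega
    have h6 : q.eval (sz ws) ≤ q.eval (sz (t :: ws)) := eval_mono _ h5.le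
    have h7 : q.eval (sz t) ≤ q.eval (sz (t :: ws)) := by
      apply eval_mono
      rw [sz_list_cons]
      omega
    unfold stepW
    split_ifs
    · refine ⟨?_, ?_, ?_⟩
      · exact (mem_gl h1 h2 h3 _).trans (by omega)
      · exact (mem_gl h1 h2 h3 _).trans (by omega)
      · simp
    · refine ⟨by dsimp only; omega, by dsimp only; omega, ?_⟩
      exact (hq t).trans (by omega)

theorem p_stW0 : Poly (fun ws : List (List Bool) => stW ws) := by
  obtain ⟨q, hq⟩ := (p_dl (α := List Bool) Poly.id).sz_le
  have h1 : Poly (fun p : List (List Bool) × List Bool × St4 => stepW p.2.1 p.2.2) :=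
    p_stepW (Poly.fst (Poly.snd Poly.id)) (Poly.snd (Poly.snd Poly.id))
  have h2 : Poly (fun _ : List (List Bool) => (([true], [], [], false) : St4)) :=
    NPC.Poly.const _
  exact Poly.foldr (l := fun y : List (List Bool) => y)
      (s := fun _ => (([true], [], [], false) : St4))
      (F := fun (_ : List (List Bool)) t σ => stepW t σ)
      Poly.id h2 h1 (3 * (q + 20) + 6) (fun a k hk => by
        obtain ⟨e1, e2, e3⟩ := stW_bound hq (a.drop k)
        have e4 : q.eval (sz (a.drop k)) ≤ q.eval (sz a) := eval_mono _ (Poly.sz_drop_le _ _)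
        have e5 := sz_bool_le (stW (a.drop k)).2.2.2
        have e6 : sz (stW (a.drop k)) = sz (stW (a.drop k)).1 + (sz (stW (a.drop k)).2.1 +
            (sz (stW (a.drop k)).2.2.1 + sz (stW (a.drop k)).2.2.2 + 1) + 1) + 1 := by
          rw [← sz_pair, ← sz_pair, ← sz_pair]
        change sz (stW (a.drop k)) ≤ _
        rw [e6]
        simp only [Polynomial.eval_add, Polynomial.eval_mul, Polynomial.eval_ofNat]
        omega)

theorem p_stW {α : Type} [TEnc α] {ws : α → List (List Bool)} (hws : Poly ws) :
    Poly (fun a => stW (ws a)) := by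
  have h := Poly.comp (g := fun y : List (List Bool) => stW y) (f := ws) p_stW0 hws
  exact h

/-! ### The loop -/

theorem stepF_eq (A : Oracle) (M : SAlg) (B : ℕ) (x c : List Bool) :
    stepF A M B x c = if c.head? = some true then
      if (M.act (pairBits x c.tail)).head? = some false then
        if (M.next (pairBits x (A (M.act (pairBits x c.tail)).tail :: c.tail))).length ≤ B then
          true :: M.next (pairBits x (A (M.act (pairBits x c.tail)).tail :: c.tail))
        else c
      else if M.act (pairBits x c.tail) = [true, true] then [] else c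
    else c := by
  unfold stepF
  split
  · exact (if_pos rfl).symm
  · rename_i h
    rw [if_neg]
    intro h2
    match c, h2 with
    | true :: u, _ => exact h u rfl

/-- a step, unless the goal is reached -/
def stepT (A : Oracle) (M : SAlg) (B : ℕ) (x c' c : List Bool) : List Bool :=
  if c = c' then c else stepF A M B x c

theorem stepT_goal (A : Oracle) (M : SAlg) (B : ℕ) (x c' : List Bool) (t : ℕ) :
    (stepT A M B x c')^[t] c' = c' := by
  induction t with
  | zero => rfl
  | succ t ih =>
    have h : stepT A M B x c' c' = c' := by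
      unfold stepT
      exact if_pos rfl
    rw [Function.iterate_succ_apply, h, ih]

theorem iter_stepT (A : Oracle) (M : SAlg) (B : ℕ) (x c' : List Bool) (t : ℕ) :
    ∀ c : List Bool, (stepT A M B x c')^[t] c = c' ↔ ∃ τ ≤ t, (stepF A M B x)^[τ] c = c' := by
  induction t with
  | zero =>
    intro c
    simp
  | succ t ih =>
    intro c
    by_cases hc : c = c'
    · subst hc
      constructor
      · intro _
        exact ⟨0, Nat.zero_le _, rfl⟩
      · intro _
        exact stepT_goal A M B x c (t + 1)
    · have h : stepT A M B x c' c = stepF A M B x c := by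
        unfold stepT
        exact if_neg hc
      rw [Function.iterate_succ_apply, h, ih]
      constructor
      · rintro ⟨τ, h1, h2⟩
        exact ⟨τ + 1, by omega, by rw [Function.iterate_succ_apply]; exact h2⟩
      · rintro ⟨τ, h1, h2⟩
        match τ, h1, h2 with
        | 0, _, h2 => exact absurd h2 hc
        | τ + 1, h1, h2 =>
          exact ⟨τ, by omega, by rw [Function.iterate_succ_apply] at h2; exact h2⟩

theorem stepT_len (A : Oracle) (M : SAlg) (B : ℕ) (x c' c : List Bool) :
    (stepT A M B x c' c).length ≤ max c.length (B + 1) := by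
  unfold stepT
  split_ifs
  · exact le_max_left _ _
  · exact stepF_len A M B x c

theorem iter_stepT_len (A : Oracle) (M : SAlg) (B : ℕ) (x c' : List Bool) (t : ℕ) :
    ∀ c : List Bool, ((stepT A M B x c')^[t] c).length ≤ max c.length (B + 1) := by
  induction t with
  | zero => intro c; exact le_max_left _ _
  | succ t ih =>
    intro c
    rw [Function.iterate_succ_apply]
    refine (ih _).trans ?_
    have := stepT_len A M B x c' c
    omega

/-- the current configuration -/
def gc (y : List Bool) : List Bool := (unpair (unpair y).2).2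

/-- the goal -/
def gg (y : List Bool) : List Bool := (unpair (unpair y).2).1

/-- the question -/
def Qs (M : SAlg) (y : List Bool) : List (List Bool) :=
  [(M.act (pairBits (unpair y).1 (gc y).tail)).tail]

/-- the next state of the loop, with the answer `b` -/
def nx (M : SAlg) (β : Polynomial ℕ) (y : List Bool) (b : Bool) : List Bool :=
  if gc y = gg y then gc y else
    if (gc y).head? = some true then
      if (M.act (pairBits (unpair y).1 (gc y).tail)).head? = some false then
        if (M.next (pairBits (unpair y).1 (b :: (gc y).tail))).length ≤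
            β.eval (unpair y).1.length then
          true :: M.next (pairBits (unpair y).1 (b :: (gc y).tail))
        else gc y
      else if M.act (pairBits (unpair y).1 (gc y).tail) = [true, true] then [] else gc y
    else gc y

/-- the output -/
def Hs (M : SAlg) (β : Polynomial ℕ) (p : List Bool × List Bool) : List Bool :=
  pairBits (unpair p.1).1 (pairBits (gg p.1) (nx M β p.1 (p.2.head?.getD false)))

/-- one round of the loop -/
def Ss (A : Oracle) (M : SAlg) (β : Polynomial ℕ) (y : List Bool) : List Bool :=
  Hs M β (y, (Qs M y).map A)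

theorem Ss_eq (A : Oracle) (M : SAlg) (β : Polynomial ℕ) (x c' c : List Bool) :
    Ss A M β (pairBits x (pairBits c' c)) =
      pairBits x (pairBits c' (stepT A M (β.eval x.length) x c' c)) := by
  unfold Ss Hs Qs nx gg gc stepT
  simp only [unpair_pairBits, List.map_cons, List.map_nil, List.head?_cons, Option.getD_some]
  rw [stepF_eq]

theorem iter_Ss (A : Oracle) (M : SAlg) (β : Polynomial ℕ) (x c' : List Bool) (t : ℕ) :
    ∀ c : List Bool, (Ss A M β)^[t] (pairBits x (pairBits c' c)) =
      pairBits x (pairBits c' ((stepT A M (β.eval x.length) x c')^[t] c)) := by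
  induction t with
  | zero => intro c; rfl
  | succ t ih =>
    intro c
    rw [Function.iterate_succ_apply, Ss_eq, ih, ← Function.iterate_succ_apply]

theorem p_gc {α : Type} [TEnc α] {y : α → List Bool} (hy : Poly y) : Poly (fun a => gc (y a)) := by
  unfold gc
  exact (Poly.snd poly_unpair).comp ((Poly.snd poly_unpair).comp hy)

theorem p_gg {α : Type} [TEnc α] {y : α → List Bool} (hy : Poly y) : Poly (fun a => gg (y a)) := by
  unfold gg
  exact (Poly.fst poly_unpair).comp ((Poly.snd poly_unpair).comp hy)

theorem p_Qs (M : SAlg) : Poly (Qs M) := by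
  unfold Qs
  have h1 := poly_of_polyTime M.act_poly
  exact Poly.cons (Poly.tail (h1.comp (poly_pairBits (Poly.fst poly_unpair)
    (Poly.tail (p_gc Poly.id))))) (NPC.Poly.const [])

theorem p_nx {α : Type} [TEnc α] (M : SAlg) (β : Polynomial ℕ) {y : α → List Bool} {b : α → Bool}
    (hy : Poly y) (hb : Poly b) : Poly (fun a => nx M β (y a) (b a)) := by
  have h1 := poly_of_polyTime M.act_poly
  have h2 := poly_of_polyTime M.next_poly
  have hx : Poly (fun a => (unpair (y a)).1) := (Poly.fst poly_unpair).comp hy
  have hc := p_gc hy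
  have ha : Poly (fun a => M.act (pairBits (unpair (y a)).1 (gc (y a)).tail)) :=
    h1.comp (poly_pairBits hx (Poly.tail hc))
  have hn : Poly (fun a => M.next (pairBits (unpair (y a)).1 (b a :: (gc (y a)).tail))) :=
    h2.comp (poly_pairBits hx (Poly.cons hb (Poly.tail hc)))
  unfold nx
  refine Poly.ite (Poly.decide_eq hc (p_gg hy)) hc ?_
  refine Poly.ite (Poly.decide_eq (Poly.head? hc) (NPC.Poly.const _)) ?_ hc
  refine Poly.ite (Poly.decide_eq (Poly.head? ha) (NPC.Poly.const _)) ?_ ?_
  · exact Poly.ite (Poly.decide_le (Poly.length hn) ((UPoly.length hx).eval β).toPoly)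
      (Poly.cons (NPC.Poly.const true) hn) hc
  · exact Poly.ite (Poly.decide_eq ha (NPC.Poly.const _)) (NPC.Poly.const _) hc

theorem p_Hs (M : SAlg) (β : Polynomial ℕ) : Poly (Hs M β) := by
  unfold Hs
  exact poly_pairBits ((Poly.fst poly_unpair).comp (Poly.fst Poly.id))
    (poly_pairBits (p_gg (Poly.fst Poly.id))
      (p_nx M β (Poly.fst Poly.id) (Poly.head?_getD (Poly.snd Poly.id) false)))

theorem isFP_Ss (A : Oracle) (M : SAlg) (β : Polynomial ℕ) : IsFP A (Ss A M β) :=
  IsFP.tt (p_Qs M) (p_Hs M β)

/-! ### The algorithm -/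

/-- the input of the loop -/
def g0 (y : List Bool) : List Bool :=
  pairBits (unpair (unpair y).2).2
    (pairBits (stW ((unbits (List (List Bool)) (unpair y).1).getD [])).2.1
      (stW ((unbits (List (List Bool)) (unpair y).1).getD [])).1)

theorem p_g0 : Poly g0 := by
  unfold g0
  have h : Poly (fun y => stW ((unbits (List (List Bool)) (unpair y).1).getD [])) :=
    p_stW (p_unb (Poly.fst poly_unpair))
  exact poly_pairBits ((Poly.snd poly_unpair).comp (Poly.snd poly_unpair))
    (poly_pairBits (Poly.fst (Poly.snd h)) (Poly.fst h))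

/-- the output of the loop -/
noncomputable def Lp (A : Oracle) (M : SAlg) (β T : Polynomial ℕ) (y : List Bool) : List Bool :=
  (Ss A M β)^[T.eval y.length] (g0 y)

theorem isFP_Lp (A : Oracle) (M : SAlg) (β T : Polynomial ℕ) : IsFP A (Lp A M β T) := by
  obtain ⟨q, hq⟩ := p_g0.sz_le
  have hlen : ∀ y : List Bool, (g0 y).length ≤ q.eval (4 * y.length + 1) := fun y => by
    have h1 := length_lt_sz (g0 y)
    have h2 := hq y
    have h3 := eval_mono q (sz_listBool_le y)
    omega
  have hlen' : ∀ y : List Bool, (g0 y).length ≤ (q.comp (4 * Polynomial.X + 1)).eval y.length := by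
    intro y
    have := hlen y
    simpa [Polynomial.eval_comp] using this
  obtain ⟨Q, hQ⟩ : ∃ Q : Polynomial ℕ, ∀ y : List Bool, (g0 y).length ≤ Q.eval y.length :=
    ⟨_, hlen'⟩
  refine IsFP.loop (isFP_Ss A M β) p_g0 T (Q + β.comp Q + 1) ?_
  intro y i _
  obtain ⟨x, c', c, hy, hl⟩ : ∃ x c' c : List Bool, g0 y = pairBits x (pairBits c' c) ∧
      2 * x.length + 1 + (2 * c'.length + 1 + c.length) = (g0 y).length := by
    refine ⟨_, _, _, rfl, ?_⟩
    unfold g0
    rw [length_pairBits, length_pairBits]
  have h1 := hQ y
  rw [hy, iter_Ss, length_pairBits, length_pairBits]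
  have h2 := iter_stepT_len A M (β.eval x.length) x c' i c
  have h3 : β.eval x.length ≤ β.eval (Q.eval y.length) := eval_mono _ (by omega)
  simp only [Polynomial.eval_add, Polynomial.eval_comp, Polynomial.eval_one]
  omega

/-- the algorithm: is the second configuration of the claim reached from the first one? -/
noncomputable def Vw (A : Oracle) (M : SAlg) (β T : Polynomial ℕ) (y : List Bool) : List Bool :=
  if gc (Lp A M β T y) = gg (Lp A M β T y) then [true] else []

theorem isFP_Vw (A : Oracle) (M : SAlg) (β T : Polynomial ℕ) : IsFP A (Vw A M β T) := by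
  have h : Poly (fun z : List Bool => if gc z = gg z then [true] else []) :=
    Poly.ite (Poly.decide_eq (p_gc Poly.id) (p_gg Poly.id)) (NPC.Poly.const _)
      (NPC.Poly.const _)
  have h2 : IsFP A (fun z : List Bool => if gc z = gg z then [true] else []) := IsFP.of_poly h
  have h3 := IsFP.comp h2 (isFP_Lp A M β T)
  exact h3

theorem Vw_iff (A : Oracle) (M : SAlg) (β T : Polynomial ℕ) (pad x : List Bool)
    (ws : List (List Bool)) : Acc (Vw A M β T) (pairBits pad x) ws ↔
      ∃ τ ≤ T.eval (pairBits (bits ws) (pairBits pad x)).length,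
        (stepF A M (β.eval x.length) x)^[τ] (stW ws).1 = (stW ws).2.1 := by
  have h1 : Lp A M β T (pairBits (bits ws) (pairBits pad x)) =
      pairBits x (pairBits (stW ws).2.1
        ((stepT A M (β.eval x.length) x (stW ws).2.1)^[T.eval
          (pairBits (bits ws) (pairBits pad x)).length] (stW ws).1)) := by
    unfold Lp g0
    simp only [unpair_pairBits, unbits_bits, Option.getD_some]
    rw [iter_Ss]
  unfold AL.Acc Vw gc gg
  rw [h1]
  simp only [unpair_pairBits]
  rw [← iter_stepT]
  split_ifs with h
  · simp [h]
  · simp [h]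

end Pool.Agent.TH683.AT
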