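import Pool.Agent.TH683.AT.Defs
import Pool.Agent.TH683.CP.Sharp

/-!
# Parities can be computed with a small memory
-/

set_option autoImplicit false

namespace Pool.Agent.TH683.AT

open Pool.Agent.NPC Pool.Agent.H620R2.Gauge Pool.Agent.TH683.CP Pool.Agent.TH683.AL Finset
open Pool.Agent.H943R3.PP N4 Pool.Agent.H622R2

/-- the parity of the number of the strings `z w` in the oracle, `|w| = s(|z|)` -/
def parS (A : Oracle) (s : ℕ → ℕ) : Set (List Bool) := {z | Odd (cntJ A (s z.length) z)}

/-- the counter -/
def wv (j : ℕ) (u : List Bool) : List Bool := if u = [] then List.replicate j false else u.drop 2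

/-- the parity so far -/
def bv (u : List Bool) : Bool := u.tail.head?.getD false

/-- the successor -/
def inc (w : List Bool) : List Bool :=
  ((Nat.bits (valB w + 1)) ++ List.replicate w.length false).take w.length

/-- the action -/
def aP (F : List Bool → List Bool) (y : List Bool) : List Bool :=
  if (unpair y).2.head? = some false then true :: [bv (unpair y).2]
  else false :: ((unpair y).1 ++ wv (F (unpair y).1).length (unpair y).2)

/-- the next memory -/
def nP (F : List Bool → List Bool) (y : List Bool) : List Bool :=
  if (wv (F (unpair y).1).length (unpair y).2.tail).all (fun b => b) = true then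
    [false, xor (bv (unpair y).2.tail) ((unpair y).2.head?.getD false)]
  else true :: (xor (bv (unpair y).2.tail) ((unpair y).2.head?.getD false)) ::
    inc (wv (F (unpair y).1).length (unpair y).2.tail)

theorem p_wv {α : Type} [TEnc α] {F : α → List Bool} {u : α → List Bool} (hF : Poly F)
    (hu : Poly u) : Poly (fun a => wv (F a).length (u a)) := by
  unfold wv
  refine Poly.ite (Poly.decide_eq hu (NPC.Poly.const [])) ?_ ?_
  · exact (NPC.Poly.map (F := fun _ (_ : Bool) => false) hF (NPC.Poly.const false)).congr
      fun a => by rw [List.map_const']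
  · exact poly_drop hu (UPoly.const 2)

theorem p_bv {α : Type} [TEnc α] {u : α → List Bool} (hu : Poly u) : Poly (fun a => bv (u a)) := by
  unfold bv
  exact Poly.head?_getD (Poly.tail hu) false

theorem p_inc {α : Type} [TEnc α] {w : α → List Bool} (hw : Poly w) :
    Poly (fun a => inc (w a)) := by
  unfold inc
  refine poly_take (Poly.append (Poly.natBits (Poly.add (Poly.valBits hw) (NPC.Poly.const 1))) ?_)
    (UPoly.length hw)
  exact (NPC.Poly.map (F := fun _ (_ : Bool) => false) hw (NPC.Poly.const false)).congr
      fun a => by rw [List.map_const']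

theorem p_aP {F : List Bool → List Bool} (hF : Poly F) : Poly (aP F) := by
  have hx : Poly (fun y : List Bool => (unpair y).1) := Poly.fst poly_unpair
  have hu : Poly (fun y : List Bool => (unpair y).2) := Poly.snd poly_unpair
  unfold aP
  refine Poly.ite (Poly.decide_eq (Poly.head? hu) (NPC.Poly.const _)) ?_ ?_
  · exact Poly.cons (NPC.Poly.const true) (Poly.cons (p_bv hu) (NPC.Poly.const []))
  · exact Poly.cons (NPC.Poly.const false) (Poly.append hx (p_wv (hF.comp hx) hu))

theorem p_nP {F : List Bool → List Bool} (hF : Poly F) : Poly (nP F) := by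
  have hx : Poly (fun y : List Bool => (unpair y).1) := Poly.fst poly_unpair
  have hu : Poly (fun y : List Bool => (unpair y).2) := Poly.snd poly_unpair
  have hw := p_wv (hF.comp hx) (Poly.tail hu)
  have hb : Poly (fun y : List Bool =>
      xor (bv (unpair y).2.tail) ((unpair y).2.head?.getD false)) :=
    Poly.xor (p_bv (Poly.tail hu)) (Poly.head?_getD hu false)
  unfold nP
  refine Poly.ite (Poly.decide_bool (Poly.all (p := fun _ b => b) hw (Poly.snd Poly.id))) ?_ ?_
  · exact Poly.cons (NPC.Poly.const false) (Poly.cons hb (NPC.Poly.const []))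
  · exact Poly.cons (NPC.Poly.const true) (Poly.cons hb (p_inc hw))

theorem valB_zeros (n : ℕ) : valB (List.replicate n false) = 0 := by
  induction n with
  | zero => rfl
  | succ n ih => rw [List.replicate_succ, valB_cons, ih]; rfl

theorem bitsOf_zero (j : ℕ) : bitsOf j 0 = List.replicate j false := by
  have h := bitsOf_valB (List.replicate j false)
  rwa [List.length_replicate, valB_zeros] at h

theorem inc_bits {j v : ℕ} (hv : v + 1 < 2 ^ j) : inc (bitsOf j v) = bitsOf j (v + 1) := by
  have h1 : valB (bitsOf j v) = v := valB_bitsOf j v (by omega)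
  have hb : (Nat.bits (v + 1)).length ≤ j := by
    have : (Nat.bits (v + 1)).length = Nat.size (v + 1) := Nat.size_eq_bits_len _
    rw [this, Nat.size_le]
    exact hv
  have h2 : inc (bitsOf j v) = Nat.bits (v + 1) ++
      List.replicate (j - (Nat.bits (v + 1)).length) false := by
    unfold inc
    rw [h1, length_bitsOf, List.take_append, List.take_of_length_le hb, List.take_replicate]
    congr 2
    omega
  have h3 : (inc (bitsOf j v)).length = j := by
    rw [h2, List.length_append, List.length_replicate]
    omega
  have h4 : valB (inc (bitsOf j v)) = v + 1 := by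
    rw [h2, valB_append, valB_bits, valB_zeros]
    ring
  have h5 := bitsOf_valB (inc (bitsOf j v))
  rw [h3, h4] at h5
  exact h5.symm

theorem all_iff : ∀ l : List Bool, l.all (fun b => b) = true ↔ valB l + 1 = 2 ^ l.length
  | [] => by simp
  | b :: l => by
    have h := all_iff l
    have h2 := valB_lt l
    rw [List.all_cons, valB_cons, List.length_cons, pow_succ, Bool.and_eq_true, h]
    cases b
    · simp
      omega
    · simp
      omega

/-- the parity after `v` questions -/
def pP (A : Oracle) (j : ℕ) (x : List Bool) (v : ℕ) : Bool :=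
  decide (Odd ((Finset.range v).filter (fun i => A (x ++ bitsOf j i) = true)).card)

/-- the memory after `v` questions -/
def sP (A : Oracle) (j : ℕ) (x : List Bool) (v : ℕ) : List Bool :=
  if v = 0 then [] else if v < 2 ^ j then true :: pP A j x v :: bitsOf j v else [false, pP A j x v]

theorem pP_succ (A : Oracle) (j : ℕ) (x : List Bool) (v : ℕ) :
    pP A j x (v + 1) = xor (pP A j x v) (A (x ++ bitsOf j v)) := by
  unfold pP
  rw [Finset.range_add_one, Finset.filter_insert]
  cases h : A (x ++ bitsOf j v)
  · simp
  · rw [if_pos rfl, Finset.card_insert_of_notMem (by simp)]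
    by_cases h2 : Odd ((Finset.range v).filter (fun i => A (x ++ bitsOf j i) = true)).card
    · have h3 : ¬ Odd (((Finset.range v).filter (fun i => A (x ++ bitsOf j i) = true)).card + 1) := by
        rw [Nat.not_odd_iff_even]
        exact h2.add_one
      simp [h2, h3]
    · have h3 : Odd (((Finset.range v).filter (fun i => A (x ++ bitsOf j i) = true)).card + 1) :=
        (Nat.not_odd_iff_even.1 h2).add_one
      simp [h2, h3]

theorem bv_sP (A : Oracle) (j : ℕ) (x : List Bool) (v : ℕ) : bv (sP A j x v) = pP A j x v := by
  unfold sP bv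
  split_ifs with h1 h2
  · subst h1
    simp [pP]
  · rfl
  · rfl

theorem wv_sP (A : Oracle) (j : ℕ) (x : List Bool) {v : ℕ} (hv : v < 2 ^ j) :
    wv j (sP A j x v) = bitsOf j v := by
  unfold sP wv
  by_cases h1 : v = 0
  · subst h1
    rw [if_pos rfl, if_pos rfl, bitsOf_zero]
  · rw [if_neg h1, if_pos hv, if_neg (by simp)]
    rfl

theorem aP_lt (A : Oracle) {F : List Bool → List Bool} (x : List Bool) {v : ℕ}
    (hv : v < 2 ^ (F x).length) : aP F (pairBits x (sP A (F x).length x v)) =
      false :: (x ++ bitsOf (F x).length v) := by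
  unfold aP
  simp only [unpair_pairBits]
  rw [if_neg, wv_sP A _ x hv]
  unfold sP
  by_cases h1 : v = 0
  · rw [if_pos h1]; simp
  · rw [if_neg h1, if_pos hv]; simp

theorem nP_lt (A : Oracle) {F : List Bool → List Bool} (x : List Bool) {v : ℕ}
    (hv : v < 2 ^ (F x).length) :
    nP F (pairBits x (A (x ++ bitsOf (F x).length v) :: sP A (F x).length x v)) =
      sP A (F x).length x (v + 1) := by
  unfold nP
  simp only [unpair_pairBits, List.tail_cons, List.head?_cons, Option.getD_some]
  rw [wv_sP A _ x hv, bv_sP, ← pP_succ]
  have h1 := all_iff (bitsOf (F x).length v)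
  rw [valB_bitsOf _ _ hv, length_bitsOf] at h1
  have h2 : v + 1 ≠ 0 := by omega
  unfold sP
  rw [if_neg h2]
  by_cases h3 : v + 1 = 2 ^ (F x).length
  · rw [if_pos (h1.2 h3), if_neg (by omega)]
  · rw [if_neg (fun h => h3 (h1.1 h)), if_pos (by omega), inc_bits (by omega)]

theorem aP_end (A : Oracle) {F : List Bool → List Bool} (x : List Bool) :
    aP F (pairBits x (sP A (F x).length x (2 ^ (F x).length))) =
      true :: [pP A (F x).length x (2 ^ (F x).length)] := by
  have h0 : 2 ^ (F x).length ≠ 0 := by positivity
  have h1 : sP A (F x).length x (2 ^ (F x).length) =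
      [false, pP A (F x).length x (2 ^ (F x).length)] := by
    unfold sP
    rw [if_neg h0, if_neg (lt_irrefl _)]
  unfold aP
  simp only [unpair_pairBits]
  rw [if_pos (by rw [h1]; rfl), bv_sP]

theorem isMem_parS (A : Oracle) {s : ℕ → ℕ} (hs : Nice s) : IsMem A s (parS A s) := by
  obtain ⟨F, hF, hFx⟩ := hs
  have hFp := poly_of_polyTime hF
  have hlen : ∀ x, (F x).length = s x.length := by
    intro x
    rw [hFx, List.length_replicate]
  refine ⟨⟨aP F, polyTime_of_poly_list (p_aP hFp), nP F, polyTime_of_poly_list (p_nP hFp)⟩, 2,
    fun x => ⟨?_, ?_⟩⟩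
  · have key : ∀ u, SAlg.Reach ⟨aP F, polyTime_of_poly_list (p_aP hFp), nP F,
        polyTime_of_poly_list (p_nP hFp)⟩ A x u → ∃ v ≤ 2 ^ (F x).length,
        u = sP A (F x).length x v := by
      intro u hu
      induction hu with
      | start => exact ⟨0, Nat.zero_le _, rfl⟩
      | @step u q _ hq ih =>
        obtain ⟨v, hv, rfl⟩ := ih
        dsimp only at hq ⊢
        rcases Nat.eq_or_lt_of_le hv with h | h
        · rw [h, aP_end] at hq
          simp at hq
        · rw [aP_lt A x h] at hq
          simp only [List.cons.injEq, true_and] at hq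
          rw [← hq]
          exact ⟨v + 1, h, nP_lt A x h⟩
    intro u hu
    obtain ⟨v, _, rfl⟩ := key u hu
    have h1 : (sP A (F x).length x v).length ≤ (F x).length + 2 := by
      unfold sP
      split_ifs
      · simp
      · simp [length_bitsOf]
      · simp
    rw [hlen] at h1
    rw [hlen]
    omega
  · have key : ∀ v ≤ 2 ^ (F x).length, SAlg.Reach ⟨aP F, polyTime_of_poly_list (p_aP hFp), nP F,
        polyTime_of_poly_list (p_nP hFp)⟩ A x (sP A (F x).length x v) := by
      intro v
      induction v with
      | zero => intro _; exact SAlg.Reach.start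
      | succ v ih =>
        intro hv
        have h1 := SAlg.Reach.step (ih (by omega)) (aP_lt A x (by omega))
        dsimp only at h1
        rwa [nP_lt A x (by omega)] at h1
    refine ⟨_, _, key _ le_rfl, aP_end A x, ?_⟩
    unfold parS pP cntJ
    rw [Set.mem_ofPred_eq, hlen]
    simp

end Pool.Agent.TH683.AT
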