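import Pool.Agent.TH683.AT.Game

/-!
# Memory is simulated by alternations
-/

set_option autoImplicit false

namespace Pool.Agent.TH683.AT

open Pool.Agent.NPC Pool.Agent.H620R2.Gauge Pool.Agent.TH683.CP Pool.Agent.TH683.AL Finset
open Pool.Agent.H943R3.PP N4

theorem stW_one (w : List Bool) (ws : List (List Bool)) (hf : (stW ws).2.2.2 = false) :
    stW (w :: ws) = ((stW ws).1, (stW ws).2.1, dl w, true) := by
  have h1 : stW (w :: ws) = stepW w (stW ws) := rfl
  rw [h1]
  unfold stepW
  rw [if_neg (by rw [hf]; simp)]

theorem stW_two (w' w : List Bool) (ws : List (List Bool)) (hf : (stW ws).2.2.2 = false) :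
    stW (w' :: w :: ws) =
      ((((stW ws).1 :: dl w) ++ [(stW ws).2.1]).getD w'.length (stW ws).2.1,
        (((stW ws).1 :: dl w) ++ [(stW ws).2.1]).getD (w'.length + 1) (stW ws).2.1,
        [], false) := by
  have h1 : stW (w' :: w :: ws) = stepW w' (stW (w :: ws)) := rfl
  rw [h1, stW_one w ws hf]
  unfold stepW
  rw [if_pos rfl]
  rfl

/-- soundness -/
theorem sound (A : Oracle) (M : SAlg) (β T : Polynomial ℕ) (pad x : List Bool) (m : ℕ) :
    ∀ (i e : ℕ) (ws : List (List Bool)), e ≤ 1 → (stW ws).2.2.2 = false →
      Alt m (AL.Acc (Vw A M β T) (pairBits pad x)) (2 * i + e) true ws →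
      ∃ τ, (stepF A M (β.eval x.length) x)^[τ] (stW ws).1 = (stW ws).2.1 := by
  intro i
  induction i with
  | zero =>
    intro e ws he hf h
    rcases Nat.eq_zero_or_pos e with rfl | he'
    · simp only [Alt] at h
      obtain ⟨τ, _, hτ⟩ := (Vw_iff A M β T pad x ws).1 h
      exact ⟨τ, hτ⟩
    · have he1 : e = 1 := by omega
      subst he1
      simp only [Alt] at h
      obtain ⟨w, _, hw⟩ := h
      obtain ⟨τ, _, hτ⟩ := (Vw_iff A M β T pad x (w :: ws)).1 hw
      rw [stW_one w ws hf] at hτ
      exact ⟨τ, hτ⟩
  | succ i ih =>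
    intro e ws he hf h
    have e1 : 2 * (i + 1) + e = 2 * i + e + 1 + 1 := by ring
    rw [e1] at h
    simp only [Alt] at h
    obtain ⟨w, hwl, hw⟩ := h
    have hlen : (dl w).length ≤ m := (dl_length w).trans hwl
    obtain ⟨G, hG⟩ : ∃ G : ℕ → List Bool, ∀ j, G j =
      (((stW ws).1 :: dl w) ++ [(stW ws).2.1]).getD j (stW ws).2.1 := ⟨_, fun _ => rfl⟩
    have hG0 : G 0 = (stW ws).1 := by
      rw [hG]
      rfl
    have hGe : G ((dl w).length + 1) = (stW ws).2.1 := by
      rw [hG, List.getD_eq_getElem?_getD]
      have : ((stW ws).1 :: dl w).length = (dl w).length + 1 := rfl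
      rw [← this, List.getElem?_concat_length]
      rfl
    have hseg : ∀ j ≤ m, ∃ τ, (stepF A M (β.eval x.length) x)^[τ] (G j) = G (j + 1) := by
      intro j hj
      have h1 := ih e (List.replicate j false :: w :: ws) he (by rw [stW_two _ w ws hf])
        (hw _ (by rw [List.length_replicate]; exact hj))
      rw [stW_two _ w ws hf, List.length_replicate] at h1
      dsimp only at h1
      rw [hG, hG]
      exact h1
    have hch : ∀ j ≤ (dl w).length + 1,
        ∃ τ, (stepF A M (β.eval x.length) x)^[τ] (stW ws).1 = G j := by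
      intro j
      induction j with
      | zero => intro _; exact ⟨0, by rw [hG0]; rfl⟩
      | succ j ihj =>
        intro hj
        obtain ⟨τ, hτ⟩ := ihj (by omega)
        obtain ⟨τ', hτ'⟩ := hseg j (by omega)
        exact ⟨τ' + τ, by rw [Function.iterate_add_apply, hτ, hτ']⟩
    obtain ⟨τ, hτ⟩ := hch _ le_rfl
    exact ⟨τ, by rw [hτ, hGe]⟩

theorem dl_bits (l : List (List Bool)) : dl (bits l) = l := by
  unfold dl
  rw [unbits_bits, Option.getD_some, bits_length]
  exact List.take_of_length_le (length_lt_sz l).le

/-- completeness -/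
theorem compl (A : Oracle) (M : SAlg) (β T : Polynomial ℕ) (pad x : List Bool) (m R D Bc : ℕ)
    (hR0 : 1 ≤ R)
    (hD : ∀ ws : List (List Bool), D ≤ T.eval (pairBits (bits ws) (pairBits pad x)).length)
    (hR : ∀ l : List (List Bool), l.length ≤ R → (∀ c ∈ l, c.length ≤ Bc) → sz l ≤ m) :
    ∀ (i e : ℕ) (ws : List (List Bool)), e ≤ 1 → (stW ws).2.2.2 = false →
      (∀ τ, ((stepF A M (β.eval x.length) x)^[τ] (stW ws).1).length ≤ Bc) →
      (∃ τ ≤ R ^ i * D, (stepF A M (β.eval x.length) x)^[τ] (stW ws).1 = (stW ws).2.1) →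
      Alt m (AL.Acc (Vw A M β T) (pairBits pad x)) (2 * i + e) true ws := by
  intro i
  induction i with
  | zero =>
    intro e ws he hf _ h
    obtain ⟨τ, hτ1, hτ⟩ := h
    rw [pow_zero, one_mul] at hτ1
    rcases Nat.eq_zero_or_pos e with rfl | he'
    · simp only [Alt]
      exact (Vw_iff A M β T pad x ws).2 ⟨τ, hτ1.trans (hD ws), hτ⟩
    · have he1 : e = 1 := by omega
      subst he1
      simp only [Alt]
      refine ⟨[], by simp, (Vw_iff A M β T pad x ([] :: ws)).2 ⟨τ, hτ1.trans (hD _), ?_⟩⟩
      rw [stW_one [] ws hf]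
      exact hτ
  | succ i ih =>
    intro e ws he hf hlen h
    obtain ⟨τ, hτ1, hτ⟩ := h
    have e1 : 2 * (i + 1) + e = 2 * i + e + 1 + 1 := by ring
    rw [e1]
    simp only [Alt]
    set s : ℕ := R ^ i * D with hs
    set g : ℕ → List Bool := fun j =>
      (stepF A M (β.eval x.length) x)^[min τ (j * s)] (stW ws).1 with hg
    set l : List (List Bool) := (List.range (R - 1)).map (fun j => g (j + 1)) with hl
    have hll : l.length = R - 1 := by
      rw [hl, List.length_map, List.length_range]
    have hg0 : g 0 = (stW ws).1 := by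
      simp only [hg, Nat.zero_mul, Nat.min_zero]
      rfl
    have hgR : ∀ j ≥ R, g j = (stW ws).2.1 := by
      intro j hj
      have h1 : τ ≤ j * s := by
        refine hτ1.trans ?_
        rw [pow_succ]
        calc R ^ i * R * D = R * (R ^ i * D) := by ring
          _ ≤ j * s := Nat.mul_le_mul_right _ hj
      simp only [hg]
      rw [Nat.min_eq_left h1, hτ]
    have hG : ∀ j, (((stW ws).1 :: l) ++ [(stW ws).2.1]).getD j (stW ws).2.1 = g j := by
      intro j
      rw [List.getD_eq_getElem?_getD]
      by_cases hj : j < R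
      · have h1 : j < ((stW ws).1 :: l).length := by
          rw [List.length_cons, hll]
          omega
        rw [List.getElem?_append_left h1]
        cases j with
        | zero => rw [hg0]; rfl
        | succ j =>
          rw [List.getElem?_cons_succ, hl, List.getElem?_map, List.getElem?_range (by omega)]
          rfl
      · rw [hgR j (by omega)]
        have h1 : ((stW ws).1 :: l).length = R := by
          rw [List.length_cons, hll]
          omega
        rw [List.getElem?_append_right (by rw [h1]; omega), h1]
        rcases Nat.eq_or_lt_of_le (not_lt.1 hj) with h2 | h2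
        · rw [← h2, Nat.sub_self]
          rfl
        · rw [List.getElem?_eq_none (by simp; omega)]
          rfl
    refine ⟨bits l, ?_, ?_⟩
    · rw [bits_length]
      apply hR
      · omega
      · intro c hc
        rw [hl, List.mem_map] at hc
        obtain ⟨j, _, rfl⟩ := hc
        exact hlen _
    · intro w' _
      have hst := stW_two w' (bits l) ws hf
      rw [dl_bits, hG, hG] at hst
      apply ih e _ he (by rw [hst])
      · intro t
        rw [hst]
        simp only [hg]
        rw [← Function.iterate_add_apply]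
        exact hlen _
      · rw [hst]
        simp only [hg]
        refine ⟨min τ ((w'.length + 1) * s) - min τ (w'.length * s), ?_, ?_⟩
        · have : (w'.length + 1) * s = w'.length * s + s := by ring
          omega
        · rw [← Function.iterate_add_apply]
          congr 1
          have : w'.length * s ≤ (w'.length + 1) * s := Nat.mul_le_mul_right _ (by omega)
          omega

end Pool.Agent.TH683.AT
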