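import Pool.Agent.TH683.AT.Up

/-!
# Memory is simulated by alternations: the parameters
-/

set_option autoImplicit false

namespace Pool.Agent.TH683.AT

open Pool.Agent.NPC Pool.Agent.H620R2.Gauge Pool.Agent.TH683.CP Pool.Agent.TH683.AL Finset
open Pool.Agent.H943R3.PP N4

theorem sz_list_le (l : List (List Bool)) (B : ℕ) (h : ∀ c ∈ l, c.length ≤ B) :
    sz l ≤ l.length * (4 * B + 2) + 1 := by
  induction l with
  | nil => simp
  | cons c l ih =>
    have h1 := ih fun c hc => h c (List.mem_cons_of_mem _ hc)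
    have h2 := h c (List.mem_cons_self)
    have h3 := sz_listBool_le c
    rw [sz_list_cons, List.length_cons]
    have : (l.length + 1) * (4 * B + 2) = l.length * (4 * B + 2) + (4 * B + 2) := by ring
    omega

theorem scale (n η : ℕ) : 2 ^ (η + (Nat.log 2 n + 1)) ≤ (n + 2 ^ η + 2) ^ 3 := by
  have h0 : 1 ≤ 2 ^ η := Nat.one_le_two_pow
  have h1 : 2 ^ η ≤ n + 2 ^ η + 2 := by omega
  have h2 : 2 ^ Nat.log 2 n ≤ n + 2 ^ η + 2 := by
    rcases Nat.eq_zero_or_pos n with rfl | hn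
    · simp
    · have := Nat.pow_log_le_self 2 hn.ne'
      omega
  have h3 : 2 ≤ n + 2 ^ η + 2 := by omega
  calc 2 ^ (η + (Nat.log 2 n + 1)) = 2 ^ η * 2 ^ Nat.log 2 n * 2 := by
        rw [pow_add, pow_succ]; ring
    _ ≤ (n + 2 ^ η + 2) * (n + 2 ^ η + 2) * (n + 2 ^ η + 2) :=
        Nat.mul_le_mul (Nat.mul_le_mul h1 h2) h3
    _ = _ := by ring

theorem steps_le {n s k η c c₁ : ℕ} (h : s ≤ c * ((k + 1) * (η + Nat.log 2 n + 1))) :
    2 ^ (s + c₁ * (Nat.log 2 n + 1) + 2) ≤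
      ((n + 2 ^ η + 2) ^ (6 * (c + c₁ + 2))) ^ (k / 2) * (n + 2 ^ η + 2) ^ (6 * (c + c₁ + 2)) := by
  have h1 := scale n η
  have hk : k + 1 ≤ 2 * (k / 2 + 1) := by omega
  rw [← pow_mul, ← pow_add]
  have e1 : 6 * (c + c₁ + 2) * (k / 2) + 6 * (c + c₁ + 2) =
      3 * ((c + c₁ + 2) * (2 * (k / 2 + 1))) := by ring
  rw [e1, pow_mul]
  calc 2 ^ (s + c₁ * (Nat.log 2 n + 1) + 2) ≤
        2 ^ ((η + (Nat.log 2 n + 1)) * ((c + c₁ + 2) * (2 * (k / 2 + 1)))) := by
        apply Nat.pow_le_pow_right (by norm_num)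
        have h2 : (c + c₁ + 2) * ((k + 1) * (η + Nat.log 2 n + 1)) ≤
            (η + (Nat.log 2 n + 1)) * ((c + c₁ + 2) * (2 * (k / 2 + 1))) := by
          calc (c + c₁ + 2) * ((k + 1) * (η + Nat.log 2 n + 1)) ≤
              (c + c₁ + 2) * ((2 * (k / 2 + 1)) * (η + Nat.log 2 n + 1)) := by gcongr
            _ = _ := by ring
        refine le_trans ?_ h2
        have h3 : Nat.log 2 n + 1 ≤ (k + 1) * (η + Nat.log 2 n + 1) := by
          calc Nat.log 2 n + 1 ≤ η + Nat.log 2 n + 1 := by omega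
            _ ≤ (k + 1) * (η + Nat.log 2 n + 1) := Nat.le_mul_of_pos_left _ (by omega)
        have h4 : 1 ≤ (k + 1) * (η + Nat.log 2 n + 1) := by omega
        calc s + c₁ * (Nat.log 2 n + 1) + 2 ≤ c * ((k + 1) * (η + Nat.log 2 n + 1)) +
              c₁ * ((k + 1) * (η + Nat.log 2 n + 1)) +
              2 * ((k + 1) * (η + Nat.log 2 n + 1)) := by
              have := Nat.mul_le_mul_left c₁ h3
              omega
          _ = _ := by ring
    _ = (2 ^ (η + (Nat.log 2 n + 1))) ^ ((c + c₁ + 2) * (2 * (k / 2 + 1))) := by rw [pow_mul]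
    _ ≤ _ := Nat.pow_le_pow_left h1 _

/-- **The upper bound.** -/
theorem isAltTime_of_mem {A : Oracle} {s k h : ℕ → ℕ} {L : Set (List Bool)} {S : Polynomial ℕ}
    (hS : ∀ n, s n ≤ S.eval n) (hL : IsMem A s L)
    (hc : ∃ c, ∀ n, s n ≤ c * ((k n + 1) * (h n + Nat.log 2 n + 1))) : IsAltTime A k h L := by
  obtain ⟨M, c₁, hM⟩ := hL
  obtain ⟨c, hc⟩ := hc
  set e : ℕ := 6 * (c + c₁ + 2) with he
  set β : Polynomial ℕ := S + Polynomial.C c₁ * (Polynomial.X + 1) with hβ
  set T : Polynomial ℕ := (Polynomial.X + 2) ^ e with hT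
  set p : Polynomial ℕ := (Polynomial.X + 2) ^ e * (4 * (β + 1) + 2) + 1 with hp
  have hβe : ∀ n, β.eval n = S.eval n + c₁ * (n + 1) := by
    intro n; simp [hβ]
  have hTe : ∀ n, T.eval n = (n + 2) ^ e := by
    intro n; simp [hT]
  have hpe : ∀ n, p.eval n = (n + 2) ^ e * (4 * (β.eval n + 1) + 2) + 1 := by
    intro n; simp [hp]
  have hB : ∀ x u, M.Reach A x u → u.length ≤ β.eval x.length := by
    intro x u hu
    refine ((hM x).1 u hu).trans ?_
    rw [hβe]
    have h1 := hS x.length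
    have h2 : Nat.log 2 x.length ≤ x.length := Nat.log_le_self 2 _
    have h3 : c₁ * (Nat.log 2 x.length + 1) ≤ c₁ * (x.length + 1) :=
      Nat.mul_le_mul_left _ (by omega)
    omega
  refine ⟨Vw A M β T, p, isFP_Vw A M β T, fun x => ?_⟩
  have hmem := mem_iff_iter A M (β.eval x.length) x L (hB x) (hM x).2
  rw [hmem]
  set n := x.length with hn
  have h0 : 1 ≤ 2 ^ h n := Nat.one_le_two_pow
  have hk : k n = 2 * (k n / 2) + k n % 2 := by omega
  have hst : stW [] = (([true], [], [], false) : St4) := rfl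
  constructor
  · intro hx
    obtain ⟨t, ht1, ht⟩ := iter_bound A M (β.eval n) _ x (hM x).1 hx
    rw [hk]
    refine compl A M β T (List.replicate (2 ^ h n) true) x _ ((n + 2 ^ h n + 2) ^ e)
      ((n + 2 ^ h n + 2) ^ e) (β.eval n + 1) (Nat.one_le_pow _ _ (by omega)) ?_ ?_
      (k n / 2) (k n % 2) [] (by omega) (by rw [hst]) ?_ ?_
    · intro ws
      rw [hTe, length_pairBits, length_pairBits, List.length_replicate]
      exact Nat.pow_le_pow_left (by omega) _
    · intro l hl hlc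
      refine (sz_list_le l _ hlc).trans ?_
      rw [hpe]
      have h1 : β.eval n ≤ β.eval (n + 2 ^ h n) := eval_mono _ (by omega)
      have h2 : l.length * (4 * (β.eval n + 1) + 2) ≤
          (n + 2 ^ h n + 2) ^ e * (4 * (β.eval (n + 2 ^ h n) + 1) + 2) :=
        Nat.mul_le_mul hl (by omega)
      omega
    · intro τ
      rw [hst]
      refine (iter_len A M (β.eval n) x τ [true]).trans ?_
      simp
    · rw [hst]
      refine ⟨t, ht1.trans ?_, ht⟩
      exact steps_le (hc n)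
  · intro hx
    rw [hk] at hx
    have h1 := sound A M β T _ x _ (k n / 2) (k n % 2) [] (by omega) (by rw [hst]) hx
    rw [hst] at h1
    exact h1

end Pool.Agent.TH683.AT
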